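import Pool.Agent.CubGirth.Walk

/-!
# The base graphs: two elements of order three of `SL(2, q)` and quaternions
-/

namespace CubGirth

open Equiv Matrix

/-- the order `ℤ + ℤ i + ℤ j + ℤ i j`, `i² = -1 - i`, `j² = -1`, `j i = -j - i j` -/
abbrev OO : Type := QuaternionAlgebra ℤ (-1) (-1) (-1)

/-- the norm -/
def nrm (x : OO) : ℤ :=
  x.re ^ 2 - x.re * x.imI + x.imI ^ 2 + x.imJ ^ 2 - x.imJ * x.imK + x.imK ^ 2

theorem nrm_mul (x y : OO) : nrm (x * y) = nrm x * nrm y := by
  simp only [nrm, QuaternionAlgebra.re_mul, QuaternionAlgebra.imI_mul, QuaternionAlgebra.imJ_mul,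
    QuaternionAlgebra.imK_mul]
  ring

/-- the element `1 + j` -/
def eB : OO := ⟨1, 0, 1, 0⟩
/-- the element `1 - j` -/
def eC : OO := ⟨1, 0, -1, 0⟩
/-- the element `i` (`true`) or its inverse -/
def om (d : Bool) : OO := if d then ⟨0, 1, 0, 0⟩ else ⟨-1, -1, 0, 0⟩

/-- a block -/
def blk (e d : Bool) : OO := eC * om e * eB * om d

theorem nrm_blk (e d : Bool) : nrm (blk e d) = 4 := by
  rw [blk, nrm_mul, nrm_mul, nrm_mul]
  cases e <;> cases d <;> simp [nrm, eC, eB, om]

/-- the parity condition -/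
def Good (x : OO) : Prop := x.imI % 2 = 1 ∧ x.imK % 2 = 1 ∧ (x.re + x.imJ) % 2 = 1

theorem good_blk (e d : Bool) : Good (blk e d) := by
  cases e <;> cases d <;>
    simp [Good, blk, eC, eB, om]

theorem good_blk_mul (e d : Bool) {x : OO} (h : Good x) : Good (blk e d * x) := by
  obtain ⟨h1, h2, h3⟩ := h
  cases e <;> cases d <;>
    simp only [Good, blk, eC, eB, om, QuaternionAlgebra.re_mul, QuaternionAlgebra.imI_mul,
      QuaternionAlgebra.imJ_mul, QuaternionAlgebra.imK_mul, if_true, if_false,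
      Bool.false_eq_true] <;>
    refine ⟨?_, ?_, ?_⟩ <;> ring_nf <;> omega

section field

variable {q : ℕ} [Fact q.Prime]

/-- data of a prime at least five -/
structure Dq (q : ℕ) [Fact q.Prime] where
  al : ZMod q
  be : ZMod q
  hab : al ^ 2 + be ^ 2 = -3
  h5 : 5 ≤ q

theorem exists_Dq (h5 : 5 ≤ q) : Nonempty (Dq q) := by
  obtain ⟨a, b, h⟩ := ZMod.sq_add_sq q (-3)
  exact ⟨⟨a, b, h, h5⟩⟩

variable (D : Dq q)

include D in
theorem natCast_ne_zero {n : ℕ} (h0 : 0 < n) (h1 : n < 5) : (n : ZMod q) ≠ 0 := by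
  intro h
  rw [ZMod.natCast_eq_zero_iff] at h
  have := Nat.le_of_dvd h0 h
  have := D.h5
  omega

include D in
theorem two_ne : (2 : ZMod q) ≠ 0 := by
  have := natCast_ne_zero D (n := 2) (by norm_num) (by norm_num)
  exact_mod_cast this

include D in
theorem three_ne : (3 : ZMod q) ≠ 0 := by
  have := natCast_ne_zero D (n := 3) (by norm_num) (by norm_num)
  exact_mod_cast this

/-- one half -/
def hf (q : ℕ) [Fact q.Prime] : ZMod q := (2 : ZMod q)⁻¹

include D in
theorem hf_two : hf q * 2 = 1 := inv_mul_cancel₀ (two_ne D)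

/-- the matrix of order three -/
def YM : Matrix (Fin 2) (Fin 2) (ZMod q) :=
  !![(-1 + D.al) * hf q, D.be * hf q; D.be * hf q, (-1 - D.al) * hf q]

/-- the other matrix of order three -/
def ZM : Matrix (Fin 2) (Fin 2) (ZMod q) :=
  !![(-1 + D.be) * hf q, -D.al * hf q; -D.al * hf q, (-1 - D.be) * hf q]

/-- the matrix of order four -/
def IM (q : ℕ) [Fact q.Prime] : Matrix (Fin 2) (Fin 2) (ZMod q) := !![0, -1; 1, 0]

theorem YM_sq : YM D * YM D = (-1 : ℤ) • (1 : Matrix (Fin 2) (Fin 2) (ZMod q)) + (-1 : ℤ) • YM D := by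
  have h2 := hf_two D
  have hab := D.hab
  rw [neg_smul, neg_smul, one_smul, one_smul]
  ext i j
  fin_cases i <;> fin_cases j <;>
    simp [YM, Matrix.mul_apply, Fin.sum_univ_two]
  · linear_combination (hf q ^ 2) * hab + (-(hf q) * (1 + D.al) - 1) * h2
  · linear_combination (-(D.be * hf q)) * h2
  · linear_combination (-(D.be * hf q)) * h2
  · linear_combination (hf q ^ 2) * hab + (-(hf q) * (1 - D.al) - 1) * h2

/-- the basis of the image -/
def bas : QuaternionAlgebra.Basis (Matrix (Fin 2) (Fin 2) (ZMod q)) (-1 : ℤ) (-1) (-1) where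
  i := YM D
  j := IM q
  k := YM D * IM q
  i_mul_i := YM_sq D
  j_mul_j := by
    rw [neg_smul, one_smul]
    ext i j
    fin_cases i <;> fin_cases j <;> simp [IM, Matrix.mul_apply, Fin.sum_univ_two]
  i_mul_j := rfl
  j_mul_i := by
    have h2 := hf_two D
    rw [neg_smul, one_smul]
    ext i j
    fin_cases i <;> fin_cases j <;> simp [IM, YM, Matrix.mul_apply, Fin.sum_univ_two]
    · linear_combination h2
    · linear_combination (-1 : ZMod q) * h2

/-- the homomorphism -/
def fh : OO →ₐ[ℤ] Matrix (Fin 2) (Fin 2) (ZMod q) := (bas D).liftHom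

theorem fh_apply (x : OO) : fh D x = x.re • (1 : Matrix (Fin 2) (Fin 2) (ZMod q)) +
    x.imI • YM D + x.imJ • IM q + x.imK • (YM D * IM q) := by
  rw [← Algebra.algebraMap_eq_smul_one]
  rfl

theorem fh_eq (x : OO) : fh D x =
    !![(x.re : ZMod q) + x.imI * ((-1 + D.al) * hf q) + x.imK * (D.be * hf q),
      (x.imI : ZMod q) * (D.be * hf q) - x.imJ - x.imK * ((-1 + D.al) * hf q);
      (x.imI : ZMod q) * (D.be * hf q) + x.imJ + x.imK * ((-1 - D.al) * hf q),
      (x.re : ZMod q) + x.imI * ((-1 - D.al) * hf q) - x.imK * (D.be * hf q)] := by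
  rw [fh_apply, YM, IM, Matrix.one_fin_two]
  ext i j
  fin_cases i <;> fin_cases j <;> simp <;> ring

theorem fh_zero {x : OO} (h : fh D x = 0) : ((x.re : ℤ) : ZMod q) = 0 ∧
    ((x.imI : ℤ) : ZMod q) = 0 ∧ ((x.imJ : ℤ) : ZMod q) = 0 ∧ ((x.imK : ℤ) : ZMod q) = 0 := by
  have h2 := hf_two D
  have hab := D.hab
  rw [fh_eq] at h
  have h00 := congrFun (congrFun h 0) 0
  have h01 := congrFun (congrFun h 0) 1
  have h10 := congrFun (congrFun h 1) 0
  have h11 := congrFun (congrFun h 1) 1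
  simp at h00 h01 h10 h11
  set x0 : ZMod q := (x.re : ZMod q)
  set x1 : ZMod q := (x.imI : ZMod q)
  set x2 : ZMod q := (x.imJ : ZMod q)
  set x3 : ZMod q := (x.imK : ZMod q)
  have e1 : 2 * x0 - x1 = 0 := by linear_combination h00 + h11 + x1 * h2
  have e2 : x1 * D.al + x3 * D.be = 0 := by
    linear_combination h00 - h11 - (x1 * D.al + x3 * D.be) * h2
  have e3 : x1 * D.be - x3 * D.al = 0 := by
    linear_combination h01 + h10 - (x1 * D.be - x3 * D.al) * h2
  have e4 : 2 * x2 - x3 = 0 := by linear_combination h10 - h01 + x3 * h2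
  have n2 := two_ne D
  have n3 := three_ne D
  have e5 : x1 = 0 := by
    have : 3 * x1 = 0 := by linear_combination (-D.al) * e2 - D.be * e3 + x1 * hab
    exact (mul_eq_zero.1 this).resolve_left n3
  have e6 : x3 = 0 := by
    have : 3 * x3 = 0 := by linear_combination (-D.be) * e2 + D.al * e3 + x3 * hab
    exact (mul_eq_zero.1 this).resolve_left n3
  refine ⟨?_, e5, ?_, e6⟩
  · rw [e5, sub_zero] at e1
    exact (mul_eq_zero.1 e1).resolve_left n2
  · rw [e6, sub_zero] at e4
    exact (mul_eq_zero.1 e4).resolve_left n2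

/-- the arithmetic core: a product of `k` blocks is not one unless `q²` is small -/
theorem arith {k : ℕ} {x : OO} (hN : nrm x = 4 ^ k)
    (hf : fh D x = (2 : ℤ) ^ k • (1 : Matrix (Fin 2) (Fin 2) (ZMod q))) (hG : Good x) :
    q ^ 2 ≤ 2 ^ (k + 2) := by
  have hp : q.Prime := Fact.out
  have hq5 := D.h5
  have h0 : fh D (x - ⟨2 ^ k, 0, 0, 0⟩) = 0 := by
    rw [map_sub, hf, fh_apply]
    simp
  obtain ⟨g0, g1, g2, g3⟩ := fh_zero D h0
  rw [ZMod.intCast_zmod_eq_zero_iff_dvd] at g0 g1 g2 g3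
  simp only [QuaternionAlgebra.re_sub, QuaternionAlgebra.imI_sub, QuaternionAlgebra.imJ_sub,
    QuaternionAlgebra.imK_sub, sub_zero] at g0 g1 g2 g3
  set a : ℤ := 2 * x.re - x.imI with ha
  have hpow : (2 : ℤ) ^ (k + 1) = 2 * 2 ^ k := by rw [pow_succ]; ring
  have h4 : (4 : ℤ) ^ k = 2 ^ k * 2 ^ k := by rw [← mul_pow]; norm_num
  have hnorm : a ^ 2 + (3 * x.imI ^ 2 + (2 * x.imJ - x.imK) ^ 2 + 3 * x.imK ^ 2) =
      (2 ^ (k + 1)) ^ 2 := by
    rw [nrm, h4] at hN
    rw [hpow, ha]
    linear_combination 4 * hN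
  obtain ⟨b0, hb0⟩ := g0
  obtain ⟨b1, hb1⟩ := g1
  obtain ⟨b2, hb2⟩ := g2
  obtain ⟨b3, hb3⟩ := g3
  have hdvd : (q : ℤ) ^ 2 ∣ (a - 2 ^ (k + 1)) * (a + 2 ^ (k + 1)) := by
    refine ⟨-(3 * b1 ^ 2 + (2 * b2 - b3) ^ 2 + 3 * b3 ^ 2), ?_⟩
    rw [hb1, hb2, hb3] at hnorm
    linear_combination hnorm
  have hqp : Prime (q : ℤ) := Nat.prime_iff_prime_int.1 hp
  have hcop : IsCoprime ((q : ℤ) ^ 2) (a + 2 ^ (k + 1)) := by
    apply IsCoprime.pow_left
    rw [hqp.irreducible.coprime_iff_not_dvd]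
    intro h
    have h1 : (q : ℤ) ∣ 2 ^ (k + 2) := by
      have h2 : (q : ℤ) ∣ a - 2 ^ (k + 1) := by
        rw [ha, hpow, hb1]
        exact ⟨2 * b0 - b1, by linear_combination 2 * hb0⟩
      have h3 := dvd_sub h h2
      have h5 : a + 2 ^ (k + 1) - (a - 2 ^ (k + 1)) = 2 ^ (k + 2) := by
        rw [pow_succ 2 (k + 1)]; ring
      rwa [h5] at h3
    have h2 : (q : ℤ) ∣ 2 := hqp.dvd_of_dvd_pow h1
    have h3 := Int.le_of_dvd (by norm_num) h2
    omega
  have hdvd2 : (q : ℤ) ^ 2 ∣ a - 2 ^ (k + 1) := hcop.dvd_of_dvd_mul_right hdvd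
  have hpos : (0 : ℤ) < 2 ^ (k + 1) := by positivity
  have habs : |a| ≤ 2 ^ (k + 1) := by
    apply abs_le_of_sq_le_sq _ hpos.le
    nlinarith [sq_nonneg x.imI, sq_nonneg (2 * x.imJ - x.imK), sq_nonneg x.imK]
  obtain ⟨hlo, hhi⟩ := abs_le.1 habs
  rcases eq_or_ne a (2 ^ (k + 1)) with h6 | h6
  · exfalso
    rw [h6] at hnorm
    have h7 : 3 * x.imI ^ 2 + (2 * x.imJ - x.imK) ^ 2 + 3 * x.imK ^ 2 = 0 := by linarith
    have h8 : x.imI = 0 := by
      have : x.imI ^ 2 = 0 := by
        nlinarith [sq_nonneg x.imI, sq_nonneg (2 * x.imJ - x.imK), sq_nonneg x.imK]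
      exact pow_eq_zero_iff (two_ne_zero) |>.1 this
    have h9 := hG.1
    rw [h8] at h9
    omega
  · have h7 : a - 2 ^ (k + 1) < 0 := by
      rcases lt_or_eq_of_le hhi with h | h
      · linarith
      · exact absurd h h6
    have h8 : (q : ℤ) ^ 2 ≤ 2 ^ (k + 1) - a := by
      apply Int.le_of_dvd (by linarith)
      have := (dvd_neg (α := ℤ)).2 hdvd2
      rwa [neg_sub] at this
    have h9 : (2 : ℤ) ^ (k + 2) = 2 * 2 ^ (k + 1) := by rw [pow_succ]; ring
    have h10 : (q : ℤ) ^ 2 ≤ 2 ^ (k + 2) := by rw [h9]; linarith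
    exact_mod_cast h10

/-! ### the two group elements -/

theorem YM_det : (YM D).det = 1 := by
  have h2 := hf_two D
  have hab := D.hab
  rw [YM, Matrix.det_fin_two_of]
  linear_combination (-(hf q) ^ 2) * hab + (2 * hf q + 1) * h2

theorem ZM_det : (ZM D).det = 1 := by
  have h2 := hf_two D
  have hab := D.hab
  rw [ZM, Matrix.det_fin_two_of]
  linear_combination (-(hf q) ^ 2) * hab + (2 * hf q + 1) * h2

/-- the two elements of order three -/
def gen : Bool → Matrix.SpecialLinearGroup (Fin 2) (ZMod q)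
  | false => ⟨YM D, YM_det D⟩
  | true => ⟨ZM D, ZM_det D⟩

theorem fh_om_true : fh D (om true) = YM D := by
  rw [fh_apply]; simp [om]

theorem YM_inv : (((gen D false)⁻¹ : Matrix.SpecialLinearGroup (Fin 2) (ZMod q)) :
    Matrix (Fin 2) (Fin 2) (ZMod q)) = fh D (om false) := by
  have h2 := hf_two D
  refine (Matrix.SpecialLinearGroup.coe_inv (gen D false)).trans ?_
  change (YM D).adjugate = _
  rw [fh_eq, Matrix.adjugate_fin_two]
  ext i j
  fin_cases i <;> fin_cases j <;> simp [om, YM]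
  · linear_combination (-1 : ZMod q) * h2
  · linear_combination (-1 : ZMod q) * h2

theorem conj_true : eC * om true * eB = ⟨-1, 0, 1, 2⟩ := by
  ext <;> simp [eC, om, eB]

theorem conj_false : eC * om false * eB = ⟨-1, 0, -1, -2⟩ := by
  ext <;> simp [eC, om, eB]

theorem ZM_two : (2 : ℤ) • ZM D = fh D (eC * om true * eB) := by
  have h2 := hf_two D
  rw [conj_true, fh_eq]
  ext i j
  fin_cases i <;> fin_cases j <;> simp [ZM]
  · linear_combination (-1 : ZMod q) * h2
  · linear_combination (-1 : ZMod q) * h2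
  · linear_combination h2
  · linear_combination (-1 : ZMod q) * h2

theorem ZM_inv_two : (2 : ℤ) • (((gen D true)⁻¹ : Matrix.SpecialLinearGroup (Fin 2) (ZMod q)) :
    Matrix (Fin 2) (Fin 2) (ZMod q)) = fh D (eC * om false * eB) := by
  have h2 := hf_two D
  have h3 : (2 : ℤ) • (ZM D).adjugate = fh D (eC * om false * eB) := by
    rw [conj_false, fh_eq, Matrix.adjugate_fin_two]
    ext i j
    fin_cases i <;> fin_cases j <;> simp [ZM]
    · linear_combination (-1 : ZMod q) * h2
    · linear_combination h2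
    · linear_combination (-1 : ZMod q) * h2
    · linear_combination (-1 : ZMod q) * h2
  rw [← h3]
  exact congrArg (fun M => (2 : ℤ) • M) (Matrix.SpecialLinearGroup.coe_inv (gen D true))

/-! ### the action -/

/-- the permutations of `r` copies of the group -/
def P0 (r : ℕ) (b : Bool) : Perm (Fin r × Matrix.SpecialLinearGroup (Fin 2) (ZMod q)) :=
  Equiv.prodCongr (Equiv.refl _) (Equiv.mulLeft (gen D b))

theorem P0_apply (r : ℕ) (b : Bool) (x : Fin r × Matrix.SpecialLinearGroup (Fin 2) (ZMod q)) :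
    P0 D r b x = (x.1, gen D b * x.2) := rfl

/-- the statement on walks starting with colour `false` -/
def Inv (g : Matrix.SpecialLinearGroup (Fin 2) (ZMod q)) (b : Bool)
    (g' : Matrix.SpecialLinearGroup (Fin 2) (ZMod q)) (l : ℕ) : Prop :=
  match b with
  | false => ∃ (k : ℕ) (x : OO), l = 2 * k ∧ nrm x = 4 ^ k ∧
      ((k = 0 → x = 1) ∧ (k ≠ 0 → Good x)) ∧
      (2 : ℤ) ^ k • (g' : Matrix (Fin 2) (Fin 2) (ZMod q)) =
        fh D x * (g : Matrix (Fin 2) (Fin 2) (ZMod q))
  | true => ∃ (k : ℕ) (x : OO) (d : Bool), l = 2 * k + 1 ∧ nrm x = 4 ^ k ∧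
      ((k = 0 → x = 1) ∧ (k ≠ 0 → Good x)) ∧
      (2 : ℤ) ^ k • (g' : Matrix (Fin 2) (Fin 2) (ZMod q)) =
        fh D (om d * x) * (g : Matrix (Fin 2) (Fin 2) (ZMod q))

theorem walk_inv (r : ℕ) {w : Fin r × Matrix.SpecialLinearGroup (Fin 2) (ZMod q) → ℕ}
    {x x' : Fin r × Matrix.SpecialLinearGroup (Fin 2) (ZMod q)} {b' : Bool} {l c : ℕ}
    (hw : Wk (P0 D r) w false x b' x' l c) : Inv D x.2 b' x'.2 l := by
  induction hw with
  | nil => exact ⟨0, 1, rfl, by simp [nrm], ⟨fun _ => rfl, fun h => absurd rfl h⟩, by simp⟩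
  | @snoc b1 x1 x2 l1 c1 h1 hst ih =>
    cases b1
    · -- a step of colour `false`
      obtain ⟨k, y, hl, hn, hg, he⟩ := ih
      have hd : ∃ d : Bool, (x2.2 : Matrix (Fin 2) (Fin 2) (ZMod q)) =
          fh D (om d) * (x1.2 : Matrix (Fin 2) (Fin 2) (ZMod q)) := by
        rcases hst with h | h
        · refine ⟨true, ?_⟩
          rw [h, P0_apply, fh_om_true]
          rfl
        · refine ⟨false, ?_⟩
          have h2 : x2.2 = (gen D false)⁻¹ * x1.2 := by
            rw [h, P0_apply]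
            simp
          rw [h2, ← YM_inv]
          exact Matrix.SpecialLinearGroup.coe_mul _ _
      obtain ⟨d, hd⟩ := hd
      refine ⟨k, y, d, by omega, hn, hg, ?_⟩
      rw [hd, map_mul, mul_assoc, ← he, mul_smul_comm]
    · -- a step of colour `true`
      obtain ⟨k, y, d, hl, hn, hg, he⟩ := ih
      have hd : ∃ e : Bool, (2 : ℤ) • (x2.2 : Matrix (Fin 2) (Fin 2) (ZMod q)) =
          fh D (eC * om e * eB) * (x1.2 : Matrix (Fin 2) (Fin 2) (ZMod q)) := by
        rcases hst with h | h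
        · refine ⟨true, ?_⟩
          rw [h, P0_apply, ← ZM_two, smul_mul_assoc]
          rfl
        · refine ⟨false, ?_⟩
          have h2 : x2.2 = (gen D true)⁻¹ * x1.2 := by
            rw [h, P0_apply]
            simp
          rw [h2, ← ZM_inv_two, smul_mul_assoc]
          exact congrArg (fun M => (2 : ℤ) • M) (Matrix.SpecialLinearGroup.coe_mul _ _)
      obtain ⟨e, hd⟩ := hd
      refine ⟨k + 1, blk e d * y, by omega, ?_, ?_, ?_⟩
      · rw [nrm_mul, nrm_blk, hn, pow_succ, mul_comm]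
      · refine ⟨fun h => absurd h (by omega), fun _ => ?_⟩
        rcases Nat.eq_zero_or_pos k with h0 | h0
        · rw [hg.1 h0, mul_one]
          exact good_blk e d
        · exact good_blk_mul e d (hg.2 (by omega))
      · have h3 : blk e d * y = (eC * om e * eB) * (om d * y) := by
          rw [blk, mul_assoc _ (om d)]
        rw [h3, map_mul, mul_assoc, ← he, mul_smul_comm, ← hd, smul_smul, pow_succ]

theorem cost_empty {E : Type*} [DecidableEq E] {P : Bool → Perm E} {b b' : Bool} {e e' : E}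
    {l c : ℕ} (hw : Wk P (wt ∅) b e b' e' l c) : c = l := by
  induction hw with
  | nil => rfl
  | snoc _ _ ih => rw [ih]; simp [wt]

theorem closed_false (r : ℕ) {w : Fin r × Matrix.SpecialLinearGroup (Fin 2) (ZMod q) → ℕ}
    {x : Fin r × Matrix.SpecialLinearGroup (Fin 2) (ZMod q)} {l c : ℕ} (hl : 0 < l)
    (hw : Wk (P0 D r) w false x false x l c) : 4 * Nat.log 2 q - 4 ≤ l := by
  have hp : q.Prime := Fact.out
  obtain ⟨k, y, h1, h2, h3, h4⟩ := walk_inv D r hw
  have hk : k ≠ 0 := by omega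
  have h5 : fh D y = (2 : ℤ) ^ k • (1 : Matrix (Fin 2) (Fin 2) (ZMod q)) := by
    have h6 : fh D y * ((x.2 : Matrix (Fin 2) (Fin 2) (ZMod q)) *
        ((x.2⁻¹ : Matrix.SpecialLinearGroup (Fin 2) (ZMod q)) : Matrix (Fin 2) (Fin 2) (ZMod q))) =
        (2 : ℤ) ^ k • ((x.2 : Matrix (Fin 2) (Fin 2) (ZMod q)) *
        ((x.2⁻¹ : Matrix.SpecialLinearGroup (Fin 2) (ZMod q)) : Matrix (Fin 2) (Fin 2) (ZMod q))) := by
      rw [← mul_assoc, ← h4, smul_mul_assoc]
    have h7 : (x.2 : Matrix (Fin 2) (Fin 2) (ZMod q)) *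
        ((x.2⁻¹ : Matrix.SpecialLinearGroup (Fin 2) (ZMod q)) : Matrix (Fin 2) (Fin 2) (ZMod q)) =
        1 := by
      have h8 := Matrix.SpecialLinearGroup.coe_mul x.2 x.2⁻¹
      rw [mul_inv_cancel] at h8
      rw [← h8]
      rfl
    rwa [h7, mul_one] at h6
  have h6 := arith D h2 h5 (h3.2 hk)
  have h7 : 2 ^ (2 * Nat.log 2 q) ≤ 2 ^ (k + 2) := by
    calc 2 ^ (2 * Nat.log 2 q) = (2 ^ Nat.log 2 q) ^ 2 := by rw [mul_comm, pow_mul]
      _ ≤ q ^ 2 := Nat.pow_le_pow_left (Nat.pow_log_le_self 2 hp.ne_zero) 2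
      _ ≤ _ := h6
  have h8 := (Nat.pow_le_pow_iff_right (by norm_num : 1 < 2)).1 h7
  omega

theorem base_closed (r : ℕ)
    [DecidableEq (Fin r × Matrix.SpecialLinearGroup (Fin 2) (ZMod q))]
    (A : Finset (Fin r × Matrix.SpecialLinearGroup (Fin 2) (ZMod q))) :
    Closed (P0 D r) (wt ∅) A (4 * Nat.log 2 q - 4) := by
  intro b e l c _ hl hw
  rw [cost_empty hw]
  cases b
  · exact closed_false D r hl hw
  · obtain ⟨l1, rfl⟩ : ∃ l1, l = l1 + 1 := ⟨l - 1, by omega⟩
    obtain ⟨f, c1, hs, hw1, _⟩ := hw.head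
    exact closed_false D r hl (hw1.snoc (b' := true) hs)

theorem gen_cube (b : Bool) : gen D b * (gen D b * gen D b) = 1 := by
  have h2 := hf_two D
  have hab := D.hab
  cases b
  · apply Subtype.ext
    change YM D * (YM D * YM D) = 1
    rw [YM_sq, mul_add, neg_smul, neg_smul, one_smul, one_smul, mul_neg, mul_neg, mul_one, YM_sq,
      neg_smul, neg_smul, one_smul, one_smul]
    abel
  · apply Subtype.ext
    change ZM D * (ZM D * ZM D) = 1
    have h3 : ZM D * ZM D = -1 - ZM D := by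
      ext i j
      fin_cases i <;> fin_cases j <;> simp [ZM, Matrix.mul_apply, Fin.sum_univ_two]
      · linear_combination (hf q ^ 2) * hab + (-(hf q) * (1 + D.be) - 1) * h2
      · linear_combination (D.al * hf q) * h2
      · linear_combination (D.al * hf q) * h2
      · linear_combination (hf q ^ 2) * hab + (-(hf q) * (1 - D.be) - 1) * h2
    rw [h3, mul_sub, mul_neg, mul_one, h3]
    abel

theorem gen_ne_one (b : Bool) : gen D b ≠ 1 := by
  have h2 := hf_two D
  intro h
  have h1 := congrArg (fun g : Matrix.SpecialLinearGroup (Fin 2) (ZMod q) =>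
    Matrix.trace (g : Matrix (Fin 2) (Fin 2) (ZMod q))) h
  have h4 : (3 : ZMod q) = 0 := by
    cases b
    · change Matrix.trace (YM D) = Matrix.trace (1 : Matrix (Fin 2) (Fin 2) (ZMod q)) at h1
      simp [Matrix.trace, YM, Fin.sum_univ_two] at h1
      linear_combination -h1 - h2
    · change Matrix.trace (ZM D) = Matrix.trace (1 : Matrix (Fin 2) (Fin 2) (ZMod q)) at h1
      simp [Matrix.trace, ZM, Fin.sum_univ_two] at h1
      linear_combination -h1 - h2
  exact three_ne D h4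

theorem base_sys (r : ℕ) [Fintype (Fin r × Matrix.SpecialLinearGroup (Fin 2) (ZMod q))] :
    Sys (P0 D r) Finset.univ := by
  refine ⟨fun _ _ => by simp, fun b e _ => ?_, fun b e _ h => ?_⟩
  · rw [P0_apply, P0_apply, P0_apply, ← mul_assoc, ← mul_assoc, mul_assoc (gen D b), gen_cube,
      one_mul]
  · rw [P0_apply] at h
    have h1 := congrArg Prod.snd h
    exact gen_ne_one D b (by simpa using h1)

/-- the order of the group is at most `q³` -/
theorem card_le : Nat.card (Matrix.SpecialLinearGroup (Fin 2) (ZMod q)) ≤ q ^ 3 := by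
  let f : Matrix.SpecialLinearGroup (Fin 2) (ZMod q) → ZMod q × ZMod q × ZMod q := fun g =>
    (g.1 0 0, g.1 0 1, if g.1 0 0 = 0 then g.1 1 1 else g.1 1 0)
  have hf : Function.Injective f := by
    intro g g' h
    have hd := g.2
    have hd' := g'.2
    rw [Matrix.det_fin_two] at hd hd'
    simp only [f, Prod.mk.injEq] at h
    obtain ⟨h1, h2, h3⟩ := h
    apply Subtype.ext
    rw [← h1] at h3 hd'
    rw [← h2] at hd'
    by_cases h0 : g.1 0 0 = 0
    · rw [if_pos h0, if_pos h0] at h3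
      rw [h0, zero_mul, zero_sub] at hd hd'
      have h5 : g.1 0 1 ≠ 0 := by
        intro h; rw [h, zero_mul, neg_zero] at hd; exact zero_ne_one hd
      have h4 : g.1 1 0 = g'.1 1 0 := mul_left_cancel₀ h5 (neg_injective (hd.trans hd'.symm))
      ext i j
      fin_cases i <;> fin_cases j
      · exact h1
      · exact h2
      · exact h4
      · exact h3
    · rw [if_neg h0, if_neg h0] at h3
      have h4 : g.1 1 1 = g'.1 1 1 := by
        apply mul_left_cancel₀ h0
        rw [← h3] at hd'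
        linear_combination hd - hd'
      ext i j
      fin_cases i <;> fin_cases j
      · exact h1
      · exact h2
      · exact h3
      · exact h4
  have h1 := Nat.card_le_card_of_injective f hf
  rw [Nat.card_prod, Nat.card_prod, Nat.card_zmod] at h1
  calc _ ≤ q * (q * q) := h1
    _ = q ^ 3 := by ring

include D in
theorem three_dvd_card : 3 ∣ Nat.card (Matrix.SpecialLinearGroup (Fin 2) (ZMod q)) := by
  have h1 : orderOf (gen D false) = 3 := by
    apply orderOf_eq_prime (p := 3)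
    · rw [pow_succ, pow_two, mul_assoc]
      exact gen_cube D false
    · exact gen_ne_one D false
  rw [← h1]
  exact orderOf_dvd_natCard _

end field

end CubGirth
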