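import Pool.Agent.CubGirth.Main

/-!
# The final estimate
-/

namespace CubGirth

open Real

/-- choice of the prime -/
theorem exists_q (K m : ℕ) (h : 8 * 5 ^ (K + 1) ≤ 3 * m) :
    ∃ q : ℕ, q.Prime ∧ 5 ^ (K + 1) * q ^ 3 ≤ 3 * m ∧ 3 * m < 8 * 5 ^ (K + 1) * q ^ 3 := by
  set a := 5 ^ (K + 1) with ha
  have ha0 : 0 < a := by positivity
  -- the largest `x` with `8 a x³ ≤ 3 m`
  have hex : ∃ x, 3 * m < 8 * a * (x + 1) ^ 3 := by
    refine ⟨3 * m, ?_⟩
    calc 3 * m < 3 * m + 1 := Nat.lt_succ_self _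
      _ = 1 * (3 * m + 1) ^ 1 := by ring
      _ ≤ 8 * a * (3 * m + 1) ^ 3 := Nat.mul_le_mul (by omega)
        (Nat.pow_le_pow_right (Nat.succ_pos _) (by norm_num))
  classical
  set x := Nat.find hex with hx
  have h1 : 3 * m < 8 * a * (x + 1) ^ 3 := Nat.find_spec hex
  have hx0 : x ≠ 0 := by
    intro h0
    rw [h0] at h1
    omega
  have h2 : 8 * a * x ^ 3 ≤ 3 * m := by
    have h3 := Nat.find_min hex (m := x - 1) (by omega)
    rw [show x - 1 + 1 = x by omega] at h3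
    omega
  obtain ⟨q, hq, hq1, hq2⟩ := Nat.exists_prime_lt_and_le_two_mul x hx0
  refine ⟨q, hq, ?_, ?_⟩
  · calc a * q ^ 3 ≤ a * (2 * x) ^ 3 := Nat.mul_le_mul_left _ (Nat.pow_le_pow_left hq2 3)
      _ = 8 * a * x ^ 3 := by ring
      _ ≤ 3 * m := h2
  · exact lt_of_lt_of_le h1 (Nat.mul_le_mul_left _ (Nat.pow_le_pow_left hq1 3))

theorem main_bound (m : ℕ) (hm : 8 ≤ m) :
    4 / 3 * logb 2 (2 * m) - 28 * √(logb 2 (2 * m)) ≤ (b (2 * m) : ℝ) := by
  set Λ : ℝ := logb 2 (2 * m) with hΛ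
  have hm0 : (8 : ℝ) ≤ m := by exact_mod_cast hm
  have h2 : (1 : ℝ) < 2 := by norm_num
  have hΛ4 : 4 ≤ Λ := by
    rw [hΛ, le_logb_iff_rpow_le h2 (by positivity)]
    norm_num
    linarith
  have hs0 : 0 ≤ √Λ := sqrt_nonneg _
  have hss : √Λ * √Λ = Λ := mul_self_sqrt (by linarith)
  have hb0 : (0 : ℝ) ≤ b (2 * m) := Nat.cast_nonneg _
  rcases le_or_gt (√Λ) 21 with hsm | hsm
  · have : Λ ≤ 21 * √Λ := by
      calc Λ = √Λ * √Λ := hss.symm
        _ ≤ 21 * √Λ := mul_le_mul_of_nonneg_right hsm hs0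
    linarith
  have hΛbig : 441 < Λ := by nlinarith
  -- the parameters
  set K := ⌊√Λ⌋₊ with hK
  have hK1 : (K : ℝ) ≤ √Λ := Nat.floor_le hs0
  have hK2 : √Λ < K + 1 := Nat.lt_floor_add_one _
  have hlog5 : logb 2 5 ≤ 3 := by
    rw [logb_le_iff_le_rpow h2 (by norm_num)]; norm_num
  have hlog3 : 0 ≤ logb 2 3 := logb_nonneg h2 (by norm_num)
  have hlog32 : logb 2 3 ≤ 2 := by
    rw [logb_le_iff_le_rpow h2 (by norm_num)]; norm_num
  have hmpos : (0 : ℝ) < m := by linarith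
  have hΛm : Λ = 1 + logb 2 m := by
    rw [hΛ, logb_mul (by norm_num) hmpos.ne', logb_self_eq_one h2]
  have hlog3m : logb 2 (3 * m) = logb 2 3 + logb 2 m := logb_mul (by norm_num) hmpos.ne'
  have hlog3ge : (1 : ℝ) ≤ logb 2 3 := by
    rw [le_logb_iff_rpow_le h2 (by norm_num)]; norm_num
  have hlog8 : logb 2 8 = 3 := by
    rw [show (8 : ℝ) = 2 ^ (3 : ℕ) by norm_num, logb_pow, logb_self_eq_one h2]; norm_num
  have hlogpow : logb 2 ((5 : ℝ) ^ (K + 1)) = (K + 1) * logb 2 5 := by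
    rw [logb_pow]; push_cast; ring
  have hlogpow' : logb 2 ((5 : ℝ) ^ (K + 1)) ≤ 3 * (K + 1) := by
    rw [hlogpow]
    have : (0 : ℝ) ≤ K + 1 := by positivity
    nlinarith
  have hstart : 8 * 5 ^ (K + 1) ≤ 3 * m := by
    have h3 : (8 * 5 ^ (K + 1) : ℝ) ≤ 3 * m := by
      rw [← logb_le_logb h2 (by positivity) (by positivity),
        logb_mul (by norm_num) (by positivity), hlog8, hlog3m]
      nlinarith
    exact_mod_cast h3
  obtain ⟨q, hq, hq1, hq2⟩ := exists_q K m hstart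
  have : Fact q.Prime := ⟨hq⟩
  have hq0 : (0 : ℝ) < q := by exact_mod_cast hq.pos
  set y : ℝ := logb 2 q with hy
  have hlogq3 : logb 2 ((q : ℝ) ^ 3) = 3 * y := by rw [logb_pow, hy]; norm_num
  -- lower bound of `y`
  have hylo : Λ - 6 - 3 * K ≤ 3 * y := by
    have h3 : (3 * m : ℝ) < 8 * 5 ^ (K + 1) * q ^ 3 := by exact_mod_cast hq2
    have h4 := (logb_lt_logb_iff h2 (by positivity) (by positivity)).2 h3
    have h5 : logb 2 (8 * (5 : ℝ) ^ (K + 1) * q ^ 3) = 3 + logb 2 ((5 : ℝ) ^ (K + 1)) + 3 * y := by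
      rw [logb_mul (by positivity) (by positivity), logb_mul (by norm_num) (by positivity), hlog8,
        hlogq3]
    rw [h5, hlog3m] at h4
    linarith
  have hyhi : 3 * y ≤ Λ + 1 := by
    have h3 : ((5 : ℝ) ^ (K + 1)) * q ^ 3 ≤ 3 * m := by exact_mod_cast hq1
    have h4 : (q : ℝ) ^ 3 ≤ 3 * m := by
      refine le_trans ?_ h3
      have : (1 : ℝ) ≤ (5 : ℝ) ^ (K + 1) := one_le_pow₀ (by norm_num)
      have h5 : (0 : ℝ) ≤ (q : ℝ) ^ 3 := by positivity
      nlinarith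
    have h5 := (logb_le_logb h2 (by positivity) (by positivity)).2 h4
    rw [hlogq3, hlog3m] at h5
    linarith
  have hK3 : 3 * (K : ℝ) ≤ 3 * √Λ := by linarith
  have hKL0 : √Λ * 21 ≤ Λ := by nlinarith
  have hy100 : 100 ≤ y := by nlinarith
  -- the natural logarithm
  set a := Nat.log 2 q with ha
  have ha1 : (a : ℝ) ≤ y := by
    have h3 : 2 ^ a ≤ q := Nat.pow_log_le_self 2 hq.ne_zero
    have h4 : ((2 : ℝ) ^ a) ≤ q := by exact_mod_cast h3
    have h5 := (logb_le_logb h2 (by positivity) hq0).2 h4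
    rw [logb_pow, logb_self_eq_one h2, mul_one] at h5
    exact h5
  have ha2 : y < a + 1 := by
    have h3 : q < 2 ^ (a + 1) := Nat.lt_pow_succ_log_self (by norm_num) q
    have h4 : (q : ℝ) < (2 : ℝ) ^ (a + 1) := by exact_mod_cast h3
    have h5 := (logb_lt_logb_iff h2 hq0 (by positivity)).2 h4
    rw [logb_pow, logb_self_eq_one h2, mul_one] at h5
    push_cast at h5
    exact h5
  have ha99 : 99 ≤ a := by
    have : (98 : ℝ) < a := by linarith
    have h3 : 98 < a := by exact_mod_cast this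
    omega
  have hq5 : 5 ≤ q := by
    have h3 : 2 ^ a ≤ q := Nat.pow_log_le_self 2 hq.ne_zero
    have h4 : 2 ^ 99 ≤ 2 ^ a := Nat.pow_le_pow_right (by norm_num) ha99
    omega
  have hLcast : ((4 * a - 4 : ℕ) : ℝ) = 4 * a - 4 := by
    rw [Nat.cast_sub (by omega)]; push_cast; ring
  have hKL : 3 * K ≤ 4 * a - 4 := by
    have h3 : (3 * (K : ℝ)) ≤ ((4 * a - 4 : ℕ) : ℝ) := by
      rw [hLcast]
      nlinarith
    exact_mod_cast h3
  have hfin := le_b K q m hq5 hq1 hKL (by omega)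
  have hfin' : (K : ℝ) * (4 * a - 4) ≤ K * b (2 * m) + 2 * (b (2 * m) + K) := by
    rw [← hLcast]
    exact_mod_cast hfin
  set g : ℝ := (b (2 * m) : ℝ) with hg
  have hKpos : (0 : ℝ) ≤ K := Nat.cast_nonneg _
  -- `g (K + 2) ≥ K (4 a - 6)`
  have h10 : (K + 2) * g ≥ K * (4 * a - 6) := by nlinarith
  have h11 : (K + 2) * (4 * a - 6 - g) ≤ 2 * (4 * a - 6) := by nlinarith
  have h12 : 4 * (a : ℝ) - 6 ≤ 4 / 3 * (Λ + 1) := by linarith
  have h13 : √Λ * (4 * a - 6 - g) ≤ √Λ * (8 / 3 * (√Λ + 1)) := by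
    rcases le_or_gt (4 * (a : ℝ) - 6 - g) 0 with h | h
    · nlinarith
    · have h14 : √Λ * (4 * a - 6 - g) ≤ (K + 2) * (4 * a - 6 - g) := by
        apply mul_le_mul_of_nonneg_right _ h.le
        linarith
      nlinarith
  have hspos : 0 < √Λ := by linarith
  have h15 : 4 * a - 6 - g ≤ 8 / 3 * (√Λ + 1) := le_of_mul_le_mul_left h13 hspos
  linarith

end CubGirth
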