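import Pool.Agent.CubGirth.Walk

/-!
# The cubic bipartite graph of a system of permutations
-/

namespace CubGirth

open Equiv SimpleGraph

variable {E : Type} [DecidableEq E]

/-- a finite graph all degrees of which are at least two has a cycle -/
theorem not_isAcyclic {V : Type*} [Fintype V] [Nonempty V] (G : SimpleGraph V)
    (h : ∀ v : V, ∃ a b, a ≠ b ∧ G.Adj v a ∧ G.Adj v b) : ¬ G.IsAcyclic := by
  classical
  intro hG
  obtain ⟨u, v, p, hp, hmax⟩ := Walk.exists_isPath_forall_isPath_length_le_length G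
  obtain ⟨a, b, hab, ha, hb⟩ := h u
  have key : ∀ w, G.Adj u w → w = p.snd := by
    intro w hw
    by_contra hne
    have hs : w ∉ p.support := fun hs => hne (hG.eq_snd_of_adj_start hp hw hs)
    have h1 := hmax _ _ (Walk.cons hw.symm p) (by rw [Walk.cons_isPath_iff]; exact ⟨hp, hs⟩)
    rw [Walk.length_cons] at h1
    omega
  exact hab ((key a ha).trans (key b hb).symm)

variable (P : Bool → Perm E) (A : Finset E) (hA : Sys P A)

/-- the edges around a vertex -/
def orb (b : Bool) : Setoid A where
  r e f := e = f ∨ St P b e f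
  iseqv := by
    refine ⟨fun e => Or.inl rfl, ?_, ?_⟩
    · rintro e f (h | h)
      · exact Or.inl h.symm
      · exact Or.inr h.symm
    · rintro e f g (rfl | h)
      · exact id
      · rintro (rfl | h')
        · exact Or.inr h
        · by_cases heg : e = g
          · exact Or.inl heg
          · exact Or.inr (hA.st_trans f.2 h h' (fun h1 => heg (Subtype.ext h1)))

/-- the vertices -/
abbrev VV : Type := Σ b : Bool, Quotient (orb P A hA b)

/-- the end of colour `b` of an edge -/
def en (b : Bool) (e : A) : VV P A hA := ⟨b, Quotient.mk (orb P A hA b) e⟩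

/-- the graph -/
def GG : SimpleGraph (VV P A hA) where
  Adj u v := u.1 ≠ v.1 ∧ ∃ e : A, en P A hA u.1 e = u ∧ en P A hA v.1 e = v
  symm := ⟨by
    rintro u v ⟨h, e, h1, h2⟩
    exact ⟨h.symm, e, h2, h1⟩⟩
  loopless := ⟨fun u h => h.1 rfl⟩

variable {P A}

theorem en_eq_iff {b : Bool} {e f : A} : en P A hA b e = en P A hA b f ↔ e = f ∨ St P b e f := by
  rw [en, en, Sigma.mk.inj_iff]
  constructor
  · rintro ⟨_, h⟩
    exact Quotient.exact (eq_of_heq h)
  · intro h
    exact ⟨rfl, heq_of_eq (Quotient.sound h)⟩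

theorem en_surj (v : VV P A hA) : ∃ e : A, en P A hA v.1 e = v := by
  obtain ⟨b, x⟩ := v
  obtain ⟨e, rfl⟩ := Quotient.exists_rep x
  exact ⟨e, rfl⟩

theorem adj_en (b : Bool) (e : A) : (GG P A hA).Adj (en P A hA b e) (en P A hA (!b) e) := by
  refine ⟨?_, e, rfl, rfl⟩
  change b ≠ !b
  cases b <;> simp

/-- the three edges at a vertex -/
theorem card_fiber (v : VV P A hA) : Nat.card {e : A // en P A hA v.1 e = v} = 3 := by
  classical
  obtain ⟨e, he⟩ := en_surj hA v
  set b := v.1 with hb
  have h1 : P b e ∈ A := (hA.inv b e).2 e.2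
  have h2 : P b (P b e) ∈ A := (hA.inv b _).2 h1
  let e1 : A := ⟨P b e, h1⟩
  let e2 : A := ⟨P b (P b e), h2⟩
  have hn1 : e ≠ e1 := fun h => hA.nofix b e e.2 (congrArg Subtype.val h).symm
  have hn2 : e1 ≠ e2 := fun h => hA.nofix b _ h1 (congrArg Subtype.val h).symm
  have hn3 : e ≠ e2 := fun h => by
    have h3 : (e : E) = P b (P b e) := congrArg Subtype.val h
    have h4 := hA.cube b e e.2
    rw [← h3] at h4
    exact hA.nofix b e e.2 h4
  have hset : ∀ f : A, en P A hA b f = v ↔ f ∈ ({e, e1, e2} : Finset A) := by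
    intro f
    rw [← he, en_eq_iff]
    simp only [Finset.mem_insert, Finset.mem_singleton]
    constructor
    · rintro (h | h | h)
      · exact Or.inl h
      · right; right
        apply Subtype.ext
        change (f : E) = P b (P b e)
        rw [h]
        exact (hA.cube b f f.2).symm
      · right; left
        exact Subtype.ext h
    · rintro (h | h | h)
      · exact Or.inl h
      · right; right
        exact congrArg Subtype.val h
      · right; left
        rw [congrArg Subtype.val h]
        exact (hA.cube b e e.2).symm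
  have h5 : Nat.card {f : A // en P A hA b f = v} =
      Nat.card {f : A // f ∈ ({e, e1, e2} : Finset A)} :=
    Nat.card_congr (Equiv.subtypeEquivRight hset)
  rw [h5, Nat.card_eq_fintype_card, Fintype.card_coe]
  exact Finset.card_eq_three.2 ⟨e, e1, e2, hn1, hn3, hn2, rfl⟩

theorem card_VV {m : ℕ} (hm : A.card = 3 * m) : Nat.card (VV P A hA) = 2 * m := by
  classical
  have h1 : ∀ b, 3 * Nat.card (Quotient (orb P A hA b)) = 3 * m := by
    intro b
    rw [← hm, ← Fintype.card_coe A, ← Nat.card_eq_fintype_card,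
      ← Nat.card_congr (Equiv.sigmaFiberEquiv (fun e : A => Quotient.mk (orb P A hA b) e)),
      Nat.card_sigma]
    have h2 : ∀ x : Quotient (orb P A hA b),
        Nat.card {e : A // Quotient.mk (orb P A hA b) e = x} = 3 := by
      intro x
      rw [← card_fiber hA (⟨b, x⟩ : VV P A hA)]
      apply Nat.card_congr
      apply Equiv.subtypeEquivRight
      intro e
      change _ ↔ (⟨b, Quotient.mk (orb P A hA b) e⟩ : VV P A hA) = ⟨b, x⟩
      rw [Sigma.mk.inj_iff]
      simp
    rw [Finset.sum_congr rfl (fun x _ => h2 x), Finset.sum_const, smul_eq_mul, Finset.card_univ,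
      Nat.card_eq_fintype_card, mul_comm]
  have h3 := h1 true
  have h4 := h1 false
  rw [Nat.card_sigma, Fintype.sum_bool]
  omega

/-- there are no two edges with the same ends -/
theorem no_double {w : E → ℕ} {L M : ℕ} (hw : ∀ e, w e ≤ M) (hL : Closed P w A L) (hM : 2 * M < L)
    {e f : A} (h1 : en P A hA false e = en P A hA false f)
    (h2 : en P A hA true e = en P A hA true f) : e = f := by
  by_contra hne
  rw [en_eq_iff] at h1 h2
  have h3 := h1.resolve_left hne
  have h4 := h2.resolve_left hne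
  have h5 := (Wk.one (w := w) h3).snoc (b' := true) h4.symm
  have h6 := hL _ _ _ _ e.2 (by omega) h5
  have h7 := hw e
  have h8 := hw f
  omega

theorem no_double' {w : E → ℕ} {L M : ℕ} (hw : ∀ e, w e ≤ M) (hL : Closed P w A L) (hM : 2 * M < L)
    {e f : A} {b : Bool} (h1 : en P A hA b e = en P A hA b f)
    (h2 : en P A hA (!b) e = en P A hA (!b) f) : e = f := by
  cases b
  · exact no_double hA hw hL hM h1 h2
  · exact no_double hA hw hL hM h2 h1

theorem card_neighborSet {w : E → ℕ} {L M : ℕ} (hw : ∀ e, w e ≤ M) (hL : Closed P w A L)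
    (hM : 2 * M < L) (v : VV P A hA) : Nat.card ((GG P A hA).neighborSet v) = 3 := by
  rw [← card_fiber hA v]
  symm
  have hadj : ∀ e : {e : A // en P A hA v.1 e = v}, (GG P A hA).Adj v (en P A hA (!v.1) e.1) := by
    intro e
    have := adj_en hA v.1 e.1
    rwa [e.2] at this
  apply Nat.card_congr
  refine Equiv.ofBijective (fun e => ⟨en P A hA (!v.1) e.1, hadj e⟩) ⟨?_, ?_⟩
  · intro e f h
    apply Subtype.ext
    have h1 : en P A hA (!v.1) e.1 = en P A hA (!v.1) f.1 := congrArg Subtype.val h
    exact no_double' hA hw hL hM (b := v.1) (e.2.trans f.2.symm) h1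
  · rintro ⟨u, hu⟩
    obtain ⟨h1, e, h2, h3⟩ := hu
    have h4 : u.1 = !v.1 := by
      revert h1; cases u.1 <;> cases v.1 <;> simp
    refine ⟨⟨e, h2⟩, ?_⟩
    apply Subtype.ext
    change en P A hA (!v.1) e = u
    rw [← h4, h3]

theorem isBipartite : (GG P A hA).IsBipartite := by
  have h : (GG P A hA).Coloring Bool := SimpleGraph.Coloring.mk (fun v => v.1) (fun h => h.1)
  exact h.colorable

theorem two_neighbours {w : E → ℕ} {L M : ℕ} (hw : ∀ e, w e ≤ M) (hL : Closed P w A L)
    (hM : 2 * M < L) (v : VV P A hA) : ∃ a b, a ≠ b ∧ (GG P A hA).Adj v a ∧ (GG P A hA).Adj v b := by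
  have h1 := card_neighborSet hA hw hL hM v
  have h2 : 1 < Nat.card ((GG P A hA).neighborSet v) := by omega
  have : Finite ((GG P A hA).neighborSet v) := Nat.finite_of_card_ne_zero (by omega)
  rw [Finite.one_lt_card_iff_nontrivial] at h2
  obtain ⟨a, b, hab⟩ := h2
  exact ⟨a.1, b.1, fun h => hab (Subtype.ext h), a.2, b.2⟩

omit [DecidableEq E] in
theorem flip_of_ne {a b : Bool} (h : a ≠ b) : (!a) = b := by
  revert h; cases a <;> cases b <;> simp

/-- the alternating walk of a trail -/
theorem trail_walk (w : E → ℕ) {u v : VV P A hA} (p : (GG P A hA).Walk u v) :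
    ∀ {u0 : VV P A hA} (h : (GG P A hA).Adj u0 u), (Walk.cons h p).IsTrail →
    ∃ (e f : A) (c : ℕ), en P A hA u0.1 e = u0 ∧ en P A hA u.1 e = u ∧
      en P A hA v.1 f = v ∧ en P A hA (!v.1) f = (Walk.cons h p).penultimate ∧
      Wk P w u.1 e v.1 f p.length c := by
  induction p with
  | @nil u =>
    intro u0 h _
    obtain ⟨h1, e, h2, h3⟩ := h
    refine ⟨e, e, 0, h2, h3, h3, ?_, Wk.nil⟩
    rw [flip_of_ne h1.symm]
    exact h2
  | @cons u u1 v h' p' ih =>
    intro u0 h ht
    have ht' := (Walk.isTrail_cons h _).1 ht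
    obtain ⟨e1, f, c, g1, g2, g3, g4, g5⟩ := ih h' ht'.1
    obtain ⟨k1, e, k2, k3⟩ := h
    have hne : e ≠ e1 := by
      rintro rfl
      have h1 : u0 = u1 := by
        have h2 : u0.1 = u1.1 := (flip_of_ne k1.symm).symm.trans (flip_of_ne h'.1)
        rw [← k2, ← g2, h2]
      apply ht'.2
      rw [Walk.edges_cons, h1, Sym2.eq_swap]
      exact List.mem_cons_self
    have hst : St P u.1 e e1 := by
      have h1 : en P A hA u.1 e = en P A hA u.1 e1 := k3.trans g1.symm
      exact ((en_eq_iff hA).1 h1).resolve_left hne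
    have hb : (!u.1) = u1.1 := flip_of_ne h'.1
    refine ⟨e, f, w e1 + c, k2, k3, g3, ?_, ?_⟩
    · rw [Walk.penultimate_cons_cons]
      exact g4
    · rw [Walk.length_cons]
      refine Wk.cons hst ?_
      rw [hb]
      exact g5

/-- the closed alternating walk of a cycle -/
theorem cycle_walk (w : E → ℕ) {u : VV P A hA} (p : (GG P A hA).Walk u u) (hp : p.IsCycle) :
    ∃ (b : Bool) (e : E) (c : ℕ), e ∈ A ∧ Wk P w b e b e p.length c := by
  cases p with
  | nil => exact absurd hp Walk.not_isCycle_nil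
  | @cons _ u1 _ h p =>
    have ht := hp.isTrail
    obtain ⟨e, f, c, g1, g2, g3, g4, g5⟩ := trail_walk hA w p h ht
    have hne : f ≠ e := by
      rintro rfl
      apply hp.snd_ne_penultimate
      rw [← g4, Walk.snd_cons, ← g2]
      rw [flip_of_ne h.1]
    have hst : St P u.1 f e := by
      have h1 : en P A hA u.1 f = en P A hA u.1 e := g3.trans g1.symm
      exact ((en_eq_iff hA).1 h1).resolve_left hne
    have hb : (!u.1) = u1.1 := flip_of_ne h.1
    have h6 := g5.snoc hst
    rw [hb] at h6
    exact ⟨u1.1, e, _, e.2, by rw [Walk.length_cons]; exact h6⟩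

end CubGirth
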