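import Pool.Agent.CubGirth.Remove
import Pool.Agent.CubGirth.Base
import Pool.Agent.CubGirth.Graph

/-!
# Cubic bipartite graphs of large girth and arbitrary order
-/

namespace CubGirth

open Equiv SimpleGraph

/-- cubic bipartite graphs on `2 m` vertices from copies of the group `SL(2, q)` -/
theorem exists_graph (K q m : ℕ) [Fact q.Prime] (h5 : 5 ≤ q) (hbig : 5 ^ (K + 1) * q ^ 3 ≤ 3 * m)
    (hKL : 3 * K ≤ 4 * Nat.log 2 q - 4) (h7 : 7 ≤ 4 * Nat.log 2 q - 4) :
    ∃ (V : Type) (_ : Fintype V) (G : SimpleGraph V), Fintype.card V = 2 * m ∧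
      (∀ v, (G.neighborSet v).ncard = 3) ∧ G.IsBipartite ∧ ¬ G.IsAcyclic ∧
      ∀ (v : V) (p : G.Walk v v), p.IsCycle →
        K * (4 * Nat.log 2 q - 4) ≤ K * p.length + 2 * (p.length + K) := by
  classical
  obtain ⟨D⟩ := exists_Dq h5
  set N := Nat.card (Matrix.SpecialLinearGroup (Fin 2) (ZMod q)) with hN
  have hNpos : 0 < N := Nat.card_pos
  have hNq : N ≤ q ^ 3 := card_le
  obtain ⟨n3, hn3⟩ := three_dvd_card D
  rw [← hN] at hn3
  set r := (3 * m + N - 1) / N with hr
  have hr1 : 3 * m ≤ r * N := by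
    have h1 := Nat.div_add_mod (3 * m + N - 1) N
    have h2 := Nat.mod_lt (3 * m + N - 1) hNpos
    rw [← hr] at h1
    rw [mul_comm r N]
    omega
  have hr2 : r * N < 3 * m + N := by
    have h1 := Nat.div_mul_le_self (3 * m + N - 1) N
    rw [← hr] at h1
    omega
  set t := r * n3 - m with ht
  have hrt : r * N = 3 * (r * n3) := by rw [hn3]; ring
  have hcard : (Finset.univ : Finset (Fin r × Matrix.SpecialLinearGroup (Fin 2) (ZMod q))).card =
      r * N := by
    rw [Finset.card_univ, ← Nat.card_eq_fintype_card, Nat.card_prod, Nat.card_fin]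
  have hM : 3 * m + 3 * t =
      (Finset.univ : Finset (Fin r × Matrix.SpecialLinearGroup (Fin 2) (ZMod q))).card := by
    rw [hcard]
    omega
  have h2t : 2 * t < N := by omega
  have hb : 5 ^ (K + 1) * (2 * t) < 3 * m := by
    calc 5 ^ (K + 1) * (2 * t) < 5 ^ (K + 1) * N :=
          Nat.mul_lt_mul_of_pos_left h2t (by positivity)
      _ ≤ 5 ^ (K + 1) * q ^ 3 := Nat.mul_le_mul_left _ hNq
      _ ≤ 3 * m := hbig
  have hm : 0 < m := by
    rcases Nat.eq_zero_or_pos m with h | h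
    · subst h
      simp at hb
    · exact h
  obtain ⟨P, A, T, hS, hT, hA, hL, hSep⟩ :=
    removal (base_sys D r) (base_closed D r Finset.univ) hKL h7 t (3 * m) hM hb
  have hfin : Finite (VV P A hS) := by
    apply Nat.finite_of_card_ne_zero
    rw [card_VV hS hA]
    omega
  let _ : Fintype (VV P A hS) := Fintype.ofFinite _
  have hcV : Fintype.card (VV P A hS) = 2 * m := by
    rw [← Nat.card_eq_fintype_card, card_VV hS hA]
  have hne : Nonempty (VV P A hS) := by
    rw [← Fintype.card_pos_iff, hcV]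
    omega
  refine ⟨VV P A hS, inferInstance, GG P A hS, hcV, ?_, isBipartite hS,
    not_isAcyclic _ (two_neighbours hS (wt_le T) hL (by omega)), ?_⟩
  · intro v
    rw [← Nat.card_coe_set_eq]
    exact card_neighborSet hS (wt_le T) hL (by omega) v
  · intro v p hp
    obtain ⟨b, e, c, he, hw⟩ := cycle_walk hS (wt T) p hp
    have h1 := count hS hT hL hSep hKL hw
    have h2 := hL _ _ _ _ he (by have := hp.three_le_length; omega) hw
    exact (Nat.mul_le_mul_left K h2).trans h1

/-- the maximal girth of a cubic bipartite graph on `n` vertices -/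
noncomputable def b (n : ℕ) : ℕ :=
  sSup {g | ∃ (V : Type) (_ : Fintype V) (G : SimpleGraph V), Fintype.card V = n ∧
    (∀ v, (G.neighborSet v).ncard = 3) ∧ G.IsBipartite ∧ G.girth = g}

theorem girth_le_card {V : Type} [Fintype V] (G : SimpleGraph V) :
    G.girth ≤ (Fintype.card V).choose 2 := by
  classical
  by_cases h : G.IsAcyclic
  · rw [girth_eq_zero.2 h]; exact Nat.zero_le _
  · obtain ⟨a, w, hw, hg⟩ := exists_girth_eq_length.2 h
    rw [hg]
    exact hw.isTrail.length_le_card_edgeFinset.trans G.card_edgeFinset_le_card_choose_two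

theorem bddAbove_b (n : ℕ) : BddAbove {g | ∃ (V : Type) (_ : Fintype V) (G : SimpleGraph V),
    Fintype.card V = n ∧ (∀ v, (G.neighborSet v).ncard = 3) ∧ G.IsBipartite ∧ G.girth = g} := by
  refine ⟨n.choose 2, ?_⟩
  rintro g ⟨V, _, G, hV, _, _, rfl⟩
  rw [← hV]
  exact girth_le_card G

/-- the bound in terms of natural numbers -/
theorem le_b (K q m : ℕ) [Fact q.Prime] (h5 : 5 ≤ q) (hbig : 5 ^ (K + 1) * q ^ 3 ≤ 3 * m)
    (hKL : 3 * K ≤ 4 * Nat.log 2 q - 4) (h7 : 7 ≤ 4 * Nat.log 2 q - 4) :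
    K * (4 * Nat.log 2 q - 4) ≤ K * b (2 * m) + 2 * (b (2 * m) + K) := by
  obtain ⟨V, hV, G, h1, h2, h3, h4, h6⟩ := exists_graph K q m h5 hbig hKL h7
  obtain ⟨a, w, hw, hg⟩ := exists_girth_eq_length.2 h4
  have h8 : G.girth ≤ b (2 * m) := le_csSup (bddAbove_b _) ⟨V, hV, G, h1, h2, h3, rfl⟩
  have h9 := h6 a w hw
  rw [← hg] at h9
  calc K * (4 * Nat.log 2 q - 4) ≤ K * G.girth + 2 * (G.girth + K) := h9
    _ ≤ _ := by
      have h10 := Nat.mul_le_mul_left K h8
      omega

end CubGirth
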