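import Pool.Agent.CubGirth.Walk

/-!
# Removing two adjacent vertices
-/

namespace CubGirth

open Equiv

variable {E : Type*} [DecidableEq E]

section

variable (P : Bool → Perm E) (s : E)

/-- the exchange of the edges at the two removed vertices -/
def exch : Perm E := swap (P false s) (P true s) * swap ((P false)⁻¹ s) ((P true)⁻¹ s)

/-- the new permutations -/
def newP : Bool → Perm E
  | true => P true
  | false => exch P s * P false * (exch P s)⁻¹

end

variable {P : Bool → Perm E} {s : E} {A : Finset E}

omit [DecidableEq E] in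
theorem ap_inv (f : Perm E) (e : E) : f (f⁻¹ e) = e := f.apply_symm_apply e

omit [DecidableEq E] in
theorem inv_ap (f : Perm E) (e : E) : f⁻¹ (f e) = e := f.symm_apply_apply e

/-- the five edges at the two removed vertices are different -/
structure Five (P : Bool → Perm E) (s : E) : Prop where
  y3 : P false (P false s) = (P false)⁻¹ s
  z3 : P true (P true s) = (P true)⁻¹ s
  s1 : s ≠ P false s
  s2 : s ≠ (P false)⁻¹ s
  s3 : s ≠ P true s
  s4 : s ≠ (P true)⁻¹ s
  n12 : P false s ≠ (P false)⁻¹ s
  n13 : P false s ≠ P true s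
  n14 : P false s ≠ (P true)⁻¹ s
  n23 : (P false)⁻¹ s ≠ P true s
  n24 : (P false)⁻¹ s ≠ (P true)⁻¹ s
  n34 : P true s ≠ (P true)⁻¹ s

theorem exch_y (h : Five P s) : exch P s (P false s) = P true s := by
  rw [exch, Perm.mul_apply, swap_apply_of_ne_of_ne h.n12 h.n14, swap_apply_left]

theorem exch_z (h : Five P s) : exch P s (P true s) = P false s := by
  rw [exch, Perm.mul_apply, swap_apply_of_ne_of_ne h.n23.symm h.n34, swap_apply_right]

theorem exch_y' (h : Five P s) : exch P s ((P false)⁻¹ s) = (P true)⁻¹ s := by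
  rw [exch, Perm.mul_apply, swap_apply_left, swap_apply_of_ne_of_ne h.n14.symm h.n34.symm]

theorem exch_z' (h : Five P s) : exch P s ((P true)⁻¹ s) = (P false)⁻¹ s := by
  rw [exch, Perm.mul_apply, swap_apply_right, swap_apply_of_ne_of_ne h.n12.symm h.n23]

theorem exch_of_ne {e : E} (h1 : e ≠ P false s) (h2 : e ≠ P true s) (h3 : e ≠ (P false)⁻¹ s)
    (h4 : e ≠ (P true)⁻¹ s) : exch P s e = e := by
  rw [exch, Perm.mul_apply, swap_apply_of_ne_of_ne h3 h4, swap_apply_of_ne_of_ne h1 h2]

theorem exch_exch (h : Five P s) (e : E) : exch P s (exch P s e) = e := by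
  by_cases h1 : e = P false s
  · rw [h1, exch_y h, exch_z h]
  by_cases h2 : e = P true s
  · rw [h2, exch_z h, exch_y h]
  by_cases h3 : e = (P false)⁻¹ s
  · rw [h3, exch_y' h, exch_z' h]
  by_cases h4 : e = (P true)⁻¹ s
  · rw [h4, exch_z' h, exch_y' h]
  rw [exch_of_ne h1 h2 h3 h4, exch_of_ne h1 h2 h3 h4]

theorem exch_inv (h : Five P s) : (exch P s)⁻¹ = exch P s := by
  rw [inv_eq_iff_mul_eq_one]
  ext e
  exact exch_exch h e

theorem exch_s (h : Five P s) : exch P s s = s := exch_of_ne h.s1 h.s3 h.s2 h.s4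

theorem newP_false (h : Five P s) (e : E) :
    newP P s false e = exch P s (P false (exch P s e)) := by
  change (exch P s * P false * (exch P s)⁻¹) e = _
  rw [exch_inv h]; rfl

theorem newP_true (e : E) : newP P s true e = P true e := rfl

/-- steps of the new permutations -/
theorem st_new_false (h : Five P s) {e f : E} (hs : St (newP P s) false e f) :
    St P false (exch P s e) (exch P s f) := by
  rcases hs with h1 | h1
  · left
    rw [h1, newP_false h, exch_exch h]
  · right
    rw [h1, newP_false h, exch_exch h]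

theorem exch_mem (hA : Sys P A) (hs : s ∈ A) (h : Five P s) {e : E} : exch P s e ∈ A ↔ e ∈ A := by
  have hy : P false s ∈ A := (hA.inv _ _).2 hs
  have hz : P true s ∈ A := (hA.inv _ _).2 hs
  have hy' : (P false)⁻¹ s ∈ A := by
    rw [← hA.inv false, ap_inv]; exact hs
  have hz' : (P true)⁻¹ s ∈ A := by
    rw [← hA.inv true, ap_inv]; exact hs
  by_cases h1 : e = P false s
  · rw [h1, exch_y h]; exact iff_of_true hz hy
  by_cases h2 : e = P true s
  · rw [h2, exch_z h]; exact iff_of_true hy hz
  by_cases h3 : e = (P false)⁻¹ s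
  · rw [h3, exch_y' h]; exact iff_of_true hz' hy'
  by_cases h4 : e = (P true)⁻¹ s
  · rw [h4, exch_z' h]; exact iff_of_true hy' hz'
  rw [exch_of_ne h1 h2 h3 h4]

/-- the remaining edges -/
def newA (P : Bool → Perm E) (s : E) (A : Finset E) : Finset E :=
  A \ {s, P true s, (P true)⁻¹ s}

theorem mem_newA {e : E} : e ∈ newA P s A ↔
    e ∈ A ∧ e ≠ s ∧ e ≠ P true s ∧ e ≠ (P true)⁻¹ s := by
  simp [newA, not_or]

theorem newA_sys (hA : Sys P A) (hs : s ∈ A) (h : Five P s) : Sys (newP P s) (newA P s A) := by
  have hy' : (P false)⁻¹ s ∈ A := by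
    rw [← hA.inv false, ap_inv]; exact hs
  constructor
  · rintro (_ | _) e
    · rw [newP_false h, mem_newA, mem_newA]
      have e1 : exch P s (P false (exch P s e)) ∈ A ↔ e ∈ A := by
        rw [exch_mem hA hs h, hA.inv, exch_mem hA hs h]
      have e2 : exch P s (P false (exch P s e)) = s ↔ e = (P true)⁻¹ s := by
        constructor
        · intro h1
          have h2 : P false (exch P s e) = s := by
            rw [← exch_exch h (P false (exch P s e)), h1, exch_s h]
          have h3 : exch P s e = (P false)⁻¹ s := Perm.eq_inv_iff_eq.2 h2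
          rw [← exch_exch h e, h3, exch_y' h]
        · rintro rfl
          rw [exch_z' h, ap_inv, exch_s h]
      have e3 : exch P s (P false (exch P s e)) = P true s ↔ e = s := by
        constructor
        · intro h1
          have h2 : P false (exch P s e) = P false s := by
            rw [← exch_exch h (P false (exch P s e)), h1, exch_z h]
          have h3 : exch P s e = s := (P false).injective h2
          rw [← exch_exch h e, h3, exch_s h]
        · rintro rfl
          rw [exch_s h, exch_y h]
      have e4 : exch P s (P false (exch P s e)) = (P true)⁻¹ s ↔ e = P true s := by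
        constructor
        · intro h1
          have h2 : P false (exch P s e) = (P false)⁻¹ s := by
            rw [← exch_exch h (P false (exch P s e)), h1, exch_z' h]
          rw [← h.y3] at h2
          have h3 : exch P s e = P false s := (P false).injective h2
          rw [← exch_exch h e, h3, exch_y h]
        · rintro rfl
          rw [exch_z h, h.y3, exch_y' h]
      rw [e1, Ne, Ne, Ne, e2, e3, e4]
      tauto
    · rw [newP_true, mem_newA, mem_newA, hA.inv]
      have e2 : P true e = s ↔ e = (P true)⁻¹ s := by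
        rw [Perm.eq_inv_iff_eq]
      have e3 : P true e = P true s ↔ e = s := (P true).injective.eq_iff
      have e4 : P true e = (P true)⁻¹ s ↔ e = P true s := by
        rw [← h.z3, (P true).injective.eq_iff]
      rw [Ne, Ne, Ne, e2, e3, e4]
      tauto
  · rintro (_ | _) e he
    · have he' := (mem_newA.1 he).1
      rw [newP_false h, newP_false h, newP_false h, exch_exch h, exch_exch h,
        hA.cube _ _ ((exch_mem hA hs h).2 he'), exch_exch h]
    · exact hA.cube true e (mem_newA.1 he).1
  · rintro (_ | _) e he h1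
    · have he' := (mem_newA.1 he).1
      rw [newP_false h] at h1
      have h2 : P false (exch P s e) = exch P s e := by
        rw [← exch_exch h (P false (exch P s e)), h1]
      exact hA.nofix false _ ((exch_mem hA hs h).2 he') h2
    · exact hA.nofix true e (mem_newA.1 he).1 h1

theorem card_newA (hA : Sys P A) (hs : s ∈ A) (h : Five P s) :
    (newA P s A).card + 3 = A.card := by
  have hz : P true s ∈ A := (hA.inv _ _).2 hs
  have hz' : (P true)⁻¹ s ∈ A := by
    rw [← hA.inv true, ap_inv]; exact hs
  have hsub : ({s, P true s, (P true)⁻¹ s} : Finset E) ⊆ A := by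
    intro x hx
    simp only [Finset.mem_insert, Finset.mem_singleton] at hx
    rcases hx with rfl | rfl | rfl <;> assumption
  have hc : ({s, P true s, (P true)⁻¹ s} : Finset E).card = 3 := by
    rw [Finset.card_insert_of_notMem, Finset.card_insert_of_notMem, Finset.card_singleton]
    · simpa using h.n34
    · simp only [Finset.mem_insert, Finset.mem_singleton, not_or]
      exact ⟨h.s3, h.s4⟩
  have h1 := Finset.card_sdiff_add_card_eq_card hsub
  rw [hc] at h1
  exact h1

/-- the state of the old graph corresponding to a state of the new graph -/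
def ph (P : Bool → Perm E) (s : E) (e : E) : Bool → E
  | true => e
  | false => exch P s e

/-- the new set of heavy edges -/
def newT (P : Bool → Perm E) (s : E) (T : Finset E) : Finset E :=
  insert (P false s) (insert ((P false)⁻¹ s) T)

/-- the site is not touched -/
structure Free (P : Bool → Perm E) (s : E) (T : Finset E) : Prop where
  f0 : s ∉ T
  f1 : P false s ∉ T
  f2 : (P false)⁻¹ s ∉ T
  f3 : P true s ∉ T
  f4 : (P true)⁻¹ s ∉ T

theorem wt_new_of_ne {T : Finset E} {e : E} (g1 : e ≠ P false s) (g2 : e ≠ (P false)⁻¹ s) :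
    wt (newT P s T) e = wt T e := by
  unfold wt newT
  simp only [Finset.mem_insert, g1, g2, false_or]

theorem wt_new_one {T : Finset E} : wt (newT P s T) (P false s) = 3 := by
  unfold wt newT
  simp only [Finset.mem_insert, true_or, if_true]

theorem wt_new_two {T : Finset E} : wt (newT P s T) ((P false)⁻¹ s) = 3 := by
  unfold wt newT
  simp only [Finset.mem_insert, true_or, or_true, if_true]

omit [DecidableEq E] in
theorem st_pf (e : E) : St P false (P false e) e := Or.inr rfl
omit [DecidableEq E] in
theorem st_pf' (e : E) : St P false ((P false)⁻¹ e) e := by left; rw [ap_inv]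
omit [DecidableEq E] in
theorem st_pt (e : E) : St P true (P true e) e := Or.inr rfl
omit [DecidableEq E] in
theorem st_pt' (e : E) : St P true ((P true)⁻¹ e) e := by left; rw [ap_inv]

/-- the lift of a walk -/
theorem lift (hA : Sys P A) (hs : s ∈ A) (h : Five P s) {T : Finset E} (hF : Free P s T)
    {b b' : Bool} {e e' : E} {l c : ℕ} (he : e ∈ newA P s A)
    (hw : Wk (newP P s) (wt (newT P s T)) b e b' e' l c) :
    ∃ l', l ≤ l' ∧ Wk P (wt T) b (ph P s e b) b' (ph P s e' b') l' c := by
  have w0 : wt T s = 1 := by simp [wt, hF.f0]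
  have w1 : wt T (P false s) = 1 := by simp only [wt, hF.f1, if_false]
  have w2 : wt T ((P false)⁻¹ s) = 1 := by simp only [wt, hF.f2, if_false]
  have w3 : wt T (P true s) = 1 := by simp only [wt, hF.f3, if_false]
  have w4 : wt T ((P true)⁻¹ s) = 1 := by simp only [wt, hF.f4, if_false]
  induction hw with
  | nil => exact ⟨0, le_rfl, Wk.nil⟩
  | @snoc b1 e1 e2 l1 c1 h1 hst ih =>
    obtain ⟨l2, hl2, hw2⟩ := ih
    have he1 : e1 ∈ newA P s A := (h1.mem (newA_sys hA hs h)).2 he
    have he2 : e2 ∈ newA P s A := ((newA_sys hA hs h).st_mem hst).2 he1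
    obtain ⟨m0, m1, m2, m3⟩ := mem_newA.1 he2
    cases b1
    · -- a step of colour `false`
      have hst' := st_new_false h hst
      have hw3 : Wk P (wt T) b (ph P s e b) true (exch P s e2) (l2 + 1)
          (c1 + wt T (exch P s e2)) := hw2.snoc hst'
      change ∃ l', l1 + 1 ≤ l' ∧ Wk P (wt T) b (ph P s e b) true e2 l' _
      by_cases g1 : e2 = P false s
      · rw [g1, exch_y h] at hw3
        refine ⟨l2 + 1 + 1 + 1, by omega, ?_⟩
        have h4 := (hw3.snoc (st_pt s)).snoc (st_pf s).symm
        rw [w3, w0, w1] at h4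
        have h5 : wt (newT P s T) e2 = 3 := by rw [g1]; exact wt_new_one
        rw [h5, g1]
        exact h4
      · by_cases g2 : e2 = (P false)⁻¹ s
        · rw [g2, exch_y' h] at hw3
          refine ⟨l2 + 1 + 1 + 1, by omega, ?_⟩
          have h4 := (hw3.snoc (st_pt' s)).snoc (st_pf' s).symm
          rw [w4, w0, w2] at h4
          have h5 : wt (newT P s T) e2 = 3 := by rw [g2]; exact wt_new_two
          rw [h5, g2]
          exact h4
        · rw [exch_of_ne g1 m2 g2 m3] at hw3
          have h5 : wt (newT P s T) e2 = wt T e2 := wt_new_of_ne g1 g2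
          rw [h5]
          exact ⟨l2 + 1, by omega, hw3⟩
    · -- a step of colour `true`
      have hw3 : Wk P (wt T) b (ph P s e b) false e2 (l2 + 1) (c1 + wt T e2) := hw2.snoc hst
      change ∃ l', l1 + 1 ≤ l' ∧ Wk P (wt T) b (ph P s e b) false (exch P s e2) l' _
      by_cases g1 : e2 = P false s
      · rw [g1] at hw3
        refine ⟨l2 + 1 + 1 + 1, by omega, ?_⟩
        have h4 := (hw3.snoc (st_pf s)).snoc (st_pt s).symm
        rw [w3, w0, w1] at h4
        have h5 : wt (newT P s T) e2 = 3 := by rw [g1]; exact wt_new_one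
        rw [h5, g1, exch_y h]
        exact h4
      · by_cases g2 : e2 = (P false)⁻¹ s
        · rw [g2] at hw3
          refine ⟨l2 + 1 + 1 + 1, by omega, ?_⟩
          have h4 := (hw3.snoc (st_pf' s)).snoc (st_pt' s).symm
          rw [w4, w0, w2] at h4
          have h5 : wt (newT P s T) e2 = 3 := by rw [g2]; exact wt_new_two
          rw [h5, g2, exch_y' h]
          exact h4
        · rw [exch_of_ne g1 m2 g2 m3]
          have h5 : wt (newT P s T) e2 = wt T e2 := wt_new_of_ne g1 g2
          rw [h5]
          exact ⟨l2 + 1, by omega, hw3⟩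

theorem ph_mem (hA : Sys P A) (hs : s ∈ A) (h : Five P s) {e : E} (he : e ∈ newA P s A)
    (b : Bool) : ph P s e b ∈ A := by
  cases b
  · exact (exch_mem hA hs h).2 (mem_newA.1 he).1
  · exact (mem_newA.1 he).1

theorem closed_new (hA : Sys P A) (hs : s ∈ A) (h : Five P s) {T : Finset E} (hF : Free P s T)
    {L : ℕ} (hL : Closed P (wt T) A L) :
    Closed (newP P s) (wt (newT P s T)) (newA P s A) L := by
  intro b e l c he hl hw
  obtain ⟨l', hl', hw'⟩ := lift hA hs h hF he hw
  exact hL _ _ _ _ (ph_mem hA hs h he b) (by omega) hw'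

/-- no walk of length at most `K` from `T` reaches one of the five edges -/
def Far (P : Bool → Perm E) (s : E) (T : Finset E) (K : ℕ) : Prop :=
  ∀ b b' e e' l c, e ∈ T → l ≤ K → Wk P (wt T) b e b' e' l c →
    e' ≠ s ∧ e' ≠ P false s ∧ e' ≠ P true s ∧ e' ≠ (P false)⁻¹ s ∧ e' ≠ (P true)⁻¹ s

theorem Far.free {T : Finset E} {K : ℕ} (h : Far P s T K) : Free P s T := by
  have key : ∀ e ∈ T, e ≠ s ∧ e ≠ P false s ∧ e ≠ P true s ∧ e ≠ (P false)⁻¹ s ∧
      e ≠ (P true)⁻¹ s := fun e he => h true true e e 0 0 he (Nat.zero_le _) Wk.nil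
  exact ⟨fun h1 => (key _ h1).1 rfl, fun h1 => (key _ h1).2.1 rfl,
    fun h1 => (key _ h1).2.2.2.1 rfl, fun h1 => (key _ h1).2.2.1 rfl,
    fun h1 => (key _ h1).2.2.2.2 rfl⟩

/-- short new walks starting at an old heavy edge are old walks -/
theorem short_walk (h : Five P s) {T : Finset E} {K : ℕ}
    (hF : Far P s T K) {b b' : Bool} {e e' : E} {l c : ℕ} (he : e ∈ T) (hl : l ≤ K)
    (hw : Wk (newP P s) (wt (newT P s T)) b e b' e' l c) :
    ∃ c', Wk P (wt T) b e b' e' l c' := by
  induction hw with
  | nil => exact ⟨0, Wk.nil⟩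
  | @snoc b1 e1 e2 l1 c1 h1 hst ih =>
    obtain ⟨c', hw'⟩ := ih (by omega)
    obtain ⟨_, n1, n2, n3, n4⟩ := hF _ _ _ _ _ _ he (by omega) hw'
    cases b1
    · have hst' := st_new_false h hst
      rw [exch_of_ne n1 n2 n3 n4] at hst'
      have hw2 := hw'.snoc hst'
      obtain ⟨_, m1, m2, m3, m4⟩ := hF _ _ _ _ _ _ he hl hw2
      have h3 : exch P s e2 = e2 := by
        have h4 := exch_of_ne m1 m2 m3 m4
        rw [exch_exch h] at h4
        exact h4.symm
      rw [h3] at hw2
      exact ⟨_, hw2⟩
    · exact ⟨_, hw'.snoc hst⟩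

omit [DecidableEq E] in
theorem st_ff (h : Five P s) : St P false (P false s) ((P false)⁻¹ s) := by
  left; exact h.y3.symm

omit [DecidableEq E] in
theorem st_tt (h : Five P s) : St P true (P true s) ((P true)⁻¹ s) := by
  left; exact h.z3.symm

/-- the closing of a new walk between the two new edges -/
theorem close_up (hA : Sys P A) (hs : s ∈ A) (h : Five P s) {T : Finset E} (hF : Free P s T)
    {L : ℕ} (hL : Closed P (wt T) A L) {b b' : Bool} {e e' : E} {l c : ℕ}
    (he : e = P false s ∧ e' = (P false)⁻¹ s ∨ e = (P false)⁻¹ s ∧ e' = P false s)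
    (hw : Wk (newP P s) (wt (newT P s T)) b e b' e' l c) : L ≤ 3 * l := by
  have w0 : wt T s = 1 := by simp [wt, hF.f0]
  have w1 : wt T (P false s) = 1 := by simp only [wt, hF.f1, if_false]
  have w2 : wt T ((P false)⁻¹ s) = 1 := by simp only [wt, hF.f2, if_false]
  have w3 : wt T (P true s) = 1 := by simp only [wt, hF.f3, if_false]
  have w4 : wt T ((P true)⁻¹ s) = 1 := by simp only [wt, hF.f4, if_false]
  have hy : P false s ∈ A := (hA.inv _ _).2 hs
  have hy' : (P false)⁻¹ s ∈ A := by rw [← hA.inv false, ap_inv]; exact hs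
  have heA : e ∈ newA P s A := by
    rw [mem_newA]
    rcases he with ⟨rfl, _⟩ | ⟨rfl, _⟩
    · exact ⟨hy, h.s1.symm, h.n13, h.n14⟩
    · exact ⟨hy', h.s2.symm, h.n23, h.n24⟩
  rcases Nat.eq_zero_or_pos l with h0 | h0
  · subst h0
    obtain ⟨_, h1, _⟩ := hw.zero
    rcases he with ⟨rfl, rfl⟩ | ⟨rfl, rfl⟩
    · exact absurd h1.symm h.n12
    · exact absurd h1 h.n12
  · obtain ⟨l1, rfl⟩ : ∃ l1, l = l1 + 1 := ⟨l - 1, by omega⟩
    obtain ⟨f, c1, hw1, hst, hc⟩ := hw.last
    have hc1 := hw1.cost_le (wt_le _)
    obtain ⟨l2, hl2, hw2⟩ := lift hA hs h hF heA hw1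
    have hstart := ph_mem hA hs h heA b
    cases b'
    · -- the last step has colour `true`
      have hst2 : St P true f e' := hst
      have hw3 : Wk P (wt T) b (ph P s e b) false e' (l2 + 1) (c1 + wt T e') := hw2.snoc hst2
      cases b
      · change Wk P (wt T) false (exch P s e) false e' _ _ at hw3
        change exch P s e ∈ A at hstart
        rcases he with ⟨rfl, rfl⟩ | ⟨rfl, rfl⟩
        · rw [exch_y h] at hw3 hstart
          have h4 := (hw3.snoc (st_pf' s)).snoc (st_pt s).symm
          have h5 := hL _ _ _ _ hstart (by omega) h4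
          omega
        · rw [exch_y' h] at hw3 hstart
          have h4 := (hw3.snoc (st_pf s)).snoc (st_pt' s).symm
          have h5 := hL _ _ _ _ hstart (by omega) h4
          omega
      · change Wk P (wt T) true e false e' _ _ at hw3
        rcases he with ⟨rfl, rfl⟩ | ⟨rfl, rfl⟩
        · have h4 := hw3.snoc (st_ff h).symm
          have h5 := hL _ _ _ _ hy (by omega) h4
          omega
        · have h4 := hw3.snoc (st_ff h)
          have h5 := hL _ _ _ _ hy' (by omega) h4
          omega
    · -- the last step has colour `false`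
      have hst2 : St P false (exch P s f) (exch P s e') := st_new_false h hst
      have hw3 : Wk P (wt T) b (ph P s e b) true (exch P s e') (l2 + 1)
        (c1 + wt T (exch P s e')) := hw2.snoc hst2
      cases b
      · change Wk P (wt T) false (exch P s e) true (exch P s e') _ _ at hw3
        change exch P s e ∈ A at hstart
        rcases he with ⟨rfl, rfl⟩ | ⟨rfl, rfl⟩
        · rw [exch_y h] at hw3 hstart
          rw [exch_y' h] at hw3
          have h4 := hw3.snoc (st_tt h).symm
          have h5 := hL _ _ _ _ hstart (by omega) h4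
          omega
        · rw [exch_y' h] at hw3 hstart
          rw [exch_y h] at hw3
          have h4 := hw3.snoc (st_tt h)
          have h5 := hL _ _ _ _ hstart (by omega) h4
          omega
      · change Wk P (wt T) true e true (exch P s e') _ _ at hw3
        rcases he with ⟨rfl, rfl⟩ | ⟨rfl, rfl⟩
        · rw [exch_y' h] at hw3
          have h4 := (hw3.snoc (st_pt' s)).snoc (st_pf s).symm
          have h5 := hL _ _ _ _ hy (by omega) h4
          omega
        · rw [exch_y h] at hw3
          have h4 := (hw3.snoc (st_pt s)).snoc (st_pf' s).symm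
          have h5 := hL _ _ _ _ hy' (by omega) h4
          omega

theorem sep_new (hA : Sys P A) (hs : s ∈ A) (h : Five P s) {T : Finset E} {L K : ℕ}
    (hF : Far P s T K) (hL : Closed P (wt T) A L) (hK : Sep P (wt T) T K) (hKL : 3 * K ≤ L) :
    Sep (newP P s) (wt (newT P s T)) (newT P s T) K := by
  intro b b' e e' l c he he' hne hw
  by_contra hlt
  push Not at hlt
  have hnew : ∀ e, e ∈ newT P s T ↔ e = P false s ∨ e = (P false)⁻¹ s ∨ e ∈ T := by
    intro e
    simp only [newT, Finset.mem_insert]
  rw [hnew] at he he'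
  -- walks from `T` do not reach the new edges
  have key : ∀ b b' e e' l c, e ∈ T → (e' = P false s ∨ e' = (P false)⁻¹ s) → l ≤ K →
      ¬ Wk (newP P s) (wt (newT P s T)) b e b' e' l c := by
    intro b b' e e' l c he he' hl hw
    obtain ⟨c', hw'⟩ := short_walk h hF he hl hw
    obtain ⟨_, n1, _, n3, _⟩ := hF _ _ _ _ _ _ he hl hw'
    rcases he' with h1 | h1
    · exact n1 h1
    · exact n3 h1
  by_cases hT : e ∈ T
  · by_cases hT' : e' ∈ T
    · obtain ⟨c', hw'⟩ := short_walk h hF hT hlt.le hw
      have := hK _ _ _ _ _ _ hT hT' hne hw'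
      omega
    · have h1 : e' = P false s ∨ e' = (P false)⁻¹ s := by tauto
      exact key _ _ _ _ _ _ hT h1 hlt.le hw
  · have h1 : e = P false s ∨ e = (P false)⁻¹ s := by tauto
    by_cases hT' : e' ∈ T
    · obtain ⟨c', hw'⟩ := hw.reverse
      exact key _ _ _ _ _ _ hT' h1 hlt.le hw'
    · have h2 : e' = P false s ∨ e' = (P false)⁻¹ s := by tauto
      have h3 : e = P false s ∧ e' = (P false)⁻¹ s ∨ e = (P false)⁻¹ s ∧ e' = P false s := by
        rcases h1 with h1 | h1 <;> rcases h2 with h2 | h2
        · exact absurd (h1.trans h2.symm) hne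
        · exact Or.inl ⟨h1, h2⟩
        · exact Or.inr ⟨h1, h2⟩
        · exact absurd (h1.trans h2.symm) hne
      have := close_up hA hs h hF.free hL h3 hw
      omega

/-- the five edges are different if there are no short closed walks -/
theorem five (hA : Sys P A) (hs : s ∈ A) {T : Finset E} {L : ℕ} (hL : Closed P (wt T) A L)
    (h7 : 7 ≤ L) : Five P s := by
  have hy : P false s ∈ A := (hA.inv _ _).2 hs
  have hz : P true s ∈ A := (hA.inv _ _).2 hs
  have hy' : (P false)⁻¹ s ∈ A := by rw [← hA.inv false, ap_inv]; exact hs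
  have hz' : (P true)⁻¹ s ∈ A := by rw [← hA.inv true, ap_inv]; exact hs
  have inv3 : ∀ b, P b (P b s) = (P b)⁻¹ s := by
    intro b
    rw [Perm.eq_inv_iff_eq]
    exact hA.cube b s hs
  have hinv : ∀ b, s ≠ (P b)⁻¹ s := by
    intro b h1
    rw [Perm.eq_inv_iff_eq] at h1
    exact hA.nofix b s hs h1
  have h12 : ∀ b, P b s ≠ (P b)⁻¹ s := by
    intro b h1
    rw [← inv3 b] at h1
    exact hA.nofix b s hs ((P b).injective h1).symm
  have key : ∀ e, St P false s e → St P true e s → False := by
    intro e h1 h2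
    have h3 := (Wk.one (w := wt T) h1).snoc (b' := true) h2
    have h4 := hL _ _ _ _ hs (by omega) h3
    have h5 := wt_le T e
    have h6 := wt_le T s
    omega
  refine ⟨inv3 false, inv3 true, (hA.nofix false s hs).symm, hinv false,
    (hA.nofix true s hs).symm, hinv true, h12 false, ?_, ?_, ?_, ?_, h12 true⟩
  · intro h1
    exact key _ (st_pf s).symm (h1 ▸ st_pt s)
  · intro h1
    exact key _ (st_pf s).symm (h1 ▸ st_pt' s)
  · intro h1
    exact key _ (st_pf' s).symm (h1 ▸ st_pt s)
  · intro h1
    exact key _ (st_pf' s).symm (h1 ▸ st_pt' s)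

/-! ### far sites -/

/-- the neighbourhoods of a set -/
def nbh (P : Bool → Perm E) (T : Finset E) : ℕ → Finset E
  | 0 => T
  | k + 1 => nbh P T k ∪ ((nbh P T k).image (P false) ∪ (nbh P T k).image (P false).symm) ∪
      ((nbh P T k).image (P true) ∪ (nbh P T k).image (P true).symm)

theorem card_nbh (T : Finset E) (k : ℕ) : (nbh P T k).card ≤ 5 ^ k * T.card := by
  induction k with
  | zero => simp [nbh]
  | succ k ih =>
    rw [nbh]
    have h1 := Finset.card_union_le (nbh P T k ∪ ((nbh P T k).image (P false) ∪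
      (nbh P T k).image (P false).symm)) ((nbh P T k).image (P true) ∪ (nbh P T k).image (P true).symm)
    have h2 := Finset.card_union_le (nbh P T k) ((nbh P T k).image (P false) ∪
      (nbh P T k).image (P false).symm)
    have h3 := Finset.card_union_le ((nbh P T k).image (P false)) ((nbh P T k).image (P false).symm)
    have h4 := Finset.card_union_le ((nbh P T k).image (P true)) ((nbh P T k).image (P true).symm)
    have h5 := Finset.card_image_le (s := nbh P T k) (f := P false)
    have h6 := Finset.card_image_le (s := nbh P T k) (f := (P false).symm)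
    have h7 := Finset.card_image_le (s := nbh P T k) (f := P true)
    have h8 := Finset.card_image_le (s := nbh P T k) (f := (P true).symm)
    rw [pow_succ, mul_comm (5 ^ k) 5, mul_assoc]
    omega

theorem nbh_step (T : Finset E) (k : ℕ) {b : Bool} {e f : E} (he : e ∈ nbh P T k)
    (h : St P b e f) : f ∈ nbh P T (k + 1) := by
  rw [nbh]
  simp only [Finset.mem_union, Finset.mem_image]
  cases b
  · rcases h with rfl | h
    · exact Or.inl (Or.inr (Or.inl ⟨e, he, rfl⟩))
    · exact Or.inl (Or.inr (Or.inr ⟨e, he, by rw [h, symm_apply_apply]⟩))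
  · rcases h with rfl | h
    · exact Or.inr (Or.inl ⟨e, he, rfl⟩)
    · exact Or.inr (Or.inr ⟨e, he, by rw [h, symm_apply_apply]⟩)

theorem nbh_mono (T : Finset E) {k m : ℕ} (h : k ≤ m) : nbh P T k ⊆ nbh P T m := by
  induction m, h using Nat.le_induction with
  | base => exact Finset.Subset.refl _
  | succ m _ ih =>
    refine ih.trans ?_
    intro x hx
    rw [nbh]
    exact Finset.mem_union_left _ (Finset.mem_union_left _ hx)

theorem nbh_walk {T : Finset E} {w : E → ℕ} {b b' : Bool} {e e' : E} {l c : ℕ} (he : e ∈ T)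
    (hw : Wk P w b e b' e' l c) : e' ∈ nbh P T l := by
  induction hw with
  | nil => exact he
  | @snoc b1 e1 e2 l1 c1 h1 hst ih => exact nbh_step T l1 ih hst

theorem exists_far {T : Finset E} {K : ℕ} (hc : 5 ^ (K + 1) * T.card < A.card) :
    ∃ s ∈ A, Far P s T K := by
  have h1 : ¬ A ⊆ nbh P T (K + 1) := fun h => by
    have := (Finset.card_le_card h).trans (card_nbh T (K + 1))
    omega
  rw [Finset.not_subset] at h1
  obtain ⟨s, hs, hs2⟩ := h1
  refine ⟨s, hs, ?_⟩
  intro b b' e e' l c he hl hw
  have h2 := nbh_mono (P := P) T hl (nbh_walk he hw)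
  refine ⟨fun h => ?_, fun h => ?_, fun h => ?_, fun h => ?_, fun h => ?_⟩
  · rw [h] at h2
    exact hs2 (nbh_mono T (Nat.le_succ K) h2)
  · rw [h] at h2
    exact hs2 (nbh_step T K h2 (st_pf s))
  · rw [h] at h2
    exact hs2 (nbh_step T K h2 (st_pt s))
  · rw [h] at h2
    exact hs2 (nbh_step T K h2 (st_pf' s))
  · rw [h] at h2
    exact hs2 (nbh_step T K h2 (st_pt' s))

/-- the iterated removal -/
theorem removal {P0 : Bool → Perm E} {A0 : Finset E} (h0 : Sys P0 A0) {L K : ℕ}
    (hL0 : Closed P0 (wt ∅) A0 L) (hKL : 3 * K ≤ L) (h7 : 7 ≤ L) (t : ℕ) (M : ℕ)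
    (hM : M + 3 * t = A0.card) (hbig : 5 ^ (K + 1) * (2 * t) < M) :
    ∃ (P : Bool → Perm E) (A T : Finset E), Sys P A ∧ T ⊆ A ∧ A.card = M ∧
      Closed P (wt T) A L ∧ Sep P (wt T) T K := by
  have key : ∀ i, i ≤ t → ∃ (P : Bool → Perm E) (A T : Finset E), Sys P A ∧ T ⊆ A ∧
      A.card + 3 * i = A0.card ∧ T.card ≤ 2 * i ∧ Closed P (wt T) A L ∧ Sep P (wt T) T K := by
    intro i
    induction i with
    | zero =>
      intro _
      exact ⟨P0, A0, ∅, h0, Finset.empty_subset _, by omega, by simp, hL0,
        fun _ _ _ _ _ _ he => absurd he (Finset.notMem_empty _)⟩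
    | succ i ih =>
      intro hi
      obtain ⟨P, A, T, hS, hT, hA, hTc, hL, hK⟩ := ih (by omega)
      have hfar : 5 ^ (K + 1) * T.card < A.card := by
        calc 5 ^ (K + 1) * T.card ≤ 5 ^ (K + 1) * (2 * t) :=
              Nat.mul_le_mul_left _ (by omega)
          _ < M := hbig
          _ ≤ A.card := by omega
      obtain ⟨s, hs, hF⟩ := exists_far (P := P) hfar
      have h5 := five hS hs hL h7
      have hy : P false s ∈ A := (hS.inv _ _).2 hs
      have hy' : (P false)⁻¹ s ∈ A := by rw [← hS.inv false, ap_inv]; exact hs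
      refine ⟨newP P s, newA P s A, newT P s T, newA_sys hS hs h5, ?_, ?_, ?_,
        closed_new hS hs h5 hF.free hL, sep_new hS hs h5 hF hL hK hKL⟩
      · intro x hx
        rw [newT, Finset.mem_insert, Finset.mem_insert] at hx
        rw [mem_newA]
        rcases hx with rfl | rfl | hx
        · exact ⟨hy, h5.s1.symm, h5.n13, h5.n14⟩
        · exact ⟨hy', h5.s2.symm, h5.n23, h5.n24⟩
        · refine ⟨hT hx, ?_, ?_, ?_⟩
          · rintro rfl; exact hF.free.f0 hx
          · rintro rfl; exact hF.free.f3 hx
          · rintro rfl; exact hF.free.f4 hx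
      · have := card_newA hS hs h5
        omega
      · have h1 := Finset.card_insert_le (P false s) (insert ((P false)⁻¹ s) T)
        have h2 := Finset.card_insert_le ((P false)⁻¹ s) T
        change (insert (P false s) (insert ((P false)⁻¹ s) T)).card ≤ _
        omega
  obtain ⟨P, A, T, hS, hT, hA, _, hL, hK⟩ := key t le_rfl
  exact ⟨P, A, T, hS, hT, by omega, hL, hK⟩

end CubGirth
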