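import Mathlib

/-!
# Alternating walks in cubic bipartite graphs, edge formalism

A cubic bipartite graph is given by its edges and two permutations of order three of the edges, the
cycles of which are the black and the white vertices.
-/

namespace CubGirth

open Equiv

variable {E : Type*}

/-- a step around a vertex of colour `b` -/
def St (P : Bool → Perm E) (b : Bool) (e f : E) : Prop := f = P b e ∨ e = P b f

theorem St.symm {P : Bool → Perm E} {b : Bool} {e f : E} (h : St P b e f) : St P b f e :=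
  Or.symm h

/-- alternating walks starting at the edge `e` with a step of colour `b`, arriving at an edge with
next step of another colour, with length and cost -/
inductive Wk (P : Bool → Perm E) (w : E → ℕ) (b : Bool) (e : E) : Bool → E → ℕ → ℕ → Prop
  | nil : Wk P w b e b e 0 0
  | snoc {b' : Bool} {e' e'' : E} {l c : ℕ} : Wk P w b e b' e' l c → St P b' e' e'' →
      Wk P w b e (!b') e'' (l + 1) (c + w e'')

/-- the permutations are of order three without fixed points on the set `A` -/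
structure Sys (P : Bool → Perm E) (A : Finset E) : Prop where
  inv : ∀ b e, P b e ∈ A ↔ e ∈ A
  cube : ∀ b e, e ∈ A → P b (P b (P b e)) = e
  nofix : ∀ b e, e ∈ A → P b e ≠ e

variable {P : Bool → Perm E} {w : E → ℕ} {A : Finset E}

theorem Sys.st_mem (h : Sys P A) {b : Bool} {e f : E} (hs : St P b e f) : f ∈ A ↔ e ∈ A := by
  rcases hs with rfl | rfl
  · exact h.inv b e
  · exact (h.inv b f).symm

theorem Sys.st_ne (h : Sys P A) {b : Bool} {e f : E} (he : e ∈ A) (hs : St P b e f) : f ≠ e := by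
  have hf := (h.st_mem hs).2 he
  rcases hs with rfl | rfl
  · exact h.nofix b e he
  · exact fun h' => h.nofix b f hf h'.symm

/-- two different neighbours of an edge around a vertex are neighbours -/
theorem Sys.st_trans (h : Sys P A) {b : Bool} {e f g : E} (he : e ∈ A) (h1 : St P b f e)
    (h2 : St P b e g) (hfg : f ≠ g) : St P b f g := by
  have hf := (h.st_mem h1).1 he
  have hg := (h.st_mem h2).2 he
  rcases h1 with rfl | rfl
  · rcases h2 with rfl | h2
    · right
      exact (h.cube b f hf).symm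
    · exact absurd ((P b).injective h2) hfg
  · rcases h2 with rfl | rfl
    · exact absurd rfl hfg
    · left
      exact (h.cube b g hg).symm

theorem Wk.mem (h : Sys P A) {b b' : Bool} {e e' : E} {l c : ℕ} (hw : Wk P w b e b' e' l c) :
    e' ∈ A ↔ e ∈ A := by
  induction hw with
  | nil => exact Iff.rfl
  | snoc _ hs ih => exact (h.st_mem hs).trans ih

theorem Wk.append {b b' b'' : Bool} {e e' e'' : E} {l c l' c' : ℕ} (h1 : Wk P w b e b' e' l c)
    (h2 : Wk P w b' e' b'' e'' l' c') : Wk P w b e b'' e'' (l + l') (c + c') := by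
  induction h2 with
  | nil => exact h1
  | snoc _ hs ih =>
    rw [← add_assoc, ← add_assoc]
    exact ih.snoc hs

theorem Wk.one {b : Bool} {e f : E} (h : St P b e f) : Wk P w b e (!b) f 1 (w f) := by
  have := (Wk.nil (w := w)).snoc h
  rwa [zero_add, zero_add] at this

theorem Wk.cons {b b' : Bool} {e f e' : E} {l c : ℕ} (h : St P b e f)
    (h2 : Wk P w (!b) f b' e' l c) : Wk P w b e b' e' (l + 1) (w f + c) := by
  have := (Wk.one (w := w) h).append h2
  rwa [add_comm 1 l] at this

theorem Wk.head {b b' : Bool} {e e' : E} {l c : ℕ} (h : Wk P w b e b' e' (l + 1) c) :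
    ∃ f c', St P b e f ∧ Wk P w (!b) f b' e' l c' ∧ c = w f + c' := by
  generalize hl : l + 1 = l' at h
  induction h generalizing l with
  | nil => omega
  | @snoc b1 e1 e2 l1 c1 h1 hs ih =>
    have hl1 : l1 = l := by omega
    subst hl1
    rcases Nat.eq_zero_or_pos l1 with h0 | h0
    · subst h0
      cases h1
      exact ⟨e2, 0, hs, Wk.nil, by omega⟩
    · obtain ⟨l2, rfl⟩ : ∃ l2, l1 = l2 + 1 := ⟨l1 - 1, by omega⟩
      obtain ⟨f, c', hf, hw, hc⟩ := ih rfl
      exact ⟨f, c' + w e2, hf, hw.snoc hs, by omega⟩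

theorem Wk.last {b b' : Bool} {e e' : E} {l c : ℕ} (h : Wk P w b e b' e' (l + 1) c) :
    ∃ f c', Wk P w b e (!b') f l c' ∧ St P (!b') f e' ∧ c = c' + w e' := by
  cases h with
  | @snoc b1 e1 _ _ c1 h1 hs =>
    exact ⟨e1, c1, by simpa using h1, by simpa using hs, rfl⟩

theorem Wk.reverse {b b' : Bool} {e e' : E} {l c : ℕ} (h : Wk P w b e b' e' l c) :
    ∃ c', Wk P w (!b') e' (!b) e l c' := by
  induction h with
  | nil => exact ⟨0, Wk.nil⟩
  | @snoc b1 e1 e2 l1 c1 h1 hs ih =>
    obtain ⟨c', h'⟩ := ih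
    refine ⟨w e1 + c', ?_⟩
    rw [Bool.not_not]
    exact Wk.cons hs.symm h'

theorem Wk.zero {b b' : Bool} {e e' : E} {c : ℕ} (h : Wk P w b e b' e' 0 c) :
    b' = b ∧ e' = e ∧ c = 0 := by
  cases h
  exact ⟨rfl, rfl, rfl⟩

theorem Wk.cost_le {M : ℕ} (hM : ∀ e, w e ≤ M) {b b' : Bool} {e e' : E} {l c : ℕ}
    (h : Wk P w b e b' e' l c) : c ≤ M * l := by
  induction h with
  | nil => simp
  | @snoc b1 e1 e2 l1 c1 h1 hs ih =>
    have := hM e2
    rw [Nat.mul_succ]
    omega

/-- a walk returning to its starting edge from the side where it left contains a closed walk -/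
theorem tadpole (h : Sys P A) : ∀ (l : ℕ) {b : Bool} {e : E} {c : ℕ}, e ∈ A → 0 < l →
    Wk P w b e (!b) e l c →
    ∃ b' e' l' c', e' ∈ A ∧ 0 < l' ∧ c' ≤ c ∧ Wk P w b' e' b' e' l' c' := by
  intro l
  induction l using Nat.strong_induction_on with
  | _ l ih =>
    intro b e c he hl hw
    obtain ⟨l1, rfl⟩ : ∃ l1, l = l1 + 1 := ⟨l - 1, by omega⟩
    obtain ⟨f, c1, hw1, hs1, hc1⟩ := hw.last
    rw [Bool.not_not] at hw1 hs1
    rcases Nat.eq_zero_or_pos l1 with h0 | h0
    · subst h0
      obtain ⟨_, rfl, _⟩ := hw1.zero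
      exact absurd rfl (h.st_ne he hs1)
    · obtain ⟨l2, rfl⟩ : ∃ l2, l1 = l2 + 1 := ⟨l1 - 1, by omega⟩
      obtain ⟨g, c2, hs2, hw2, hc2⟩ := hw1.head
      have hg : g ∈ A := (h.st_mem hs2).2 he
      by_cases hfg : f = g
      · subst hfg
        rcases Nat.eq_zero_or_pos l2 with h3 | h3
        · subst h3
          obtain ⟨h4, _, _⟩ := hw2.zero
          cases b <;> simp at h4
        · obtain ⟨b', e', l', c', h5, h6, h7, h8⟩ :=
            ih l2 (by omega) (b := !b) hg h3 (by rw [Bool.not_not]; exact hw2)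
          exact ⟨b', e', l', c', h5, h6, by omega, h8⟩
      · have hfg' : St P b f g := h.st_trans he hs1 hs2 hfg
        refine ⟨!b, g, l2 + 1, c2 + w g, hg, by omega, by omega, hw2.snoc hfg'⟩

/-- every closed walk has cost at least `L` -/
def Closed (P : Bool → Perm E) (w : E → ℕ) (A : Finset E) (L : ℕ) : Prop :=
  ∀ b e l c, e ∈ A → 0 < l → Wk P w b e b e l c → L ≤ c

theorem Closed.return (h : Sys P A) {L : ℕ} (hL : Closed P w A L) {b b' : Bool} {e : E}
    {l c : ℕ} (he : e ∈ A) (hl : 0 < l) (hw : Wk P w b e b' e l c) : L ≤ c := by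
  by_cases hb : b' = b
  · subst hb
    exact hL _ _ _ _ he hl hw
  · have hb' : b' = !b := by cases b <;> cases b' <;> simp_all
    subst hb'
    obtain ⟨b', e', l', c', h1, h2, h3, h4⟩ := tadpole h l he hl hw
    exact (hL _ _ _ _ h1 h2 h4).trans h3

/-- the weight: three on the set `T`, one elsewhere -/
def wt [DecidableEq E] (T : Finset E) (e : E) : ℕ := if e ∈ T then 3 else 1

theorem wt_le [DecidableEq E] (T : Finset E) (e : E) : wt T e ≤ 3 := by
  unfold wt; split_ifs <;> omega

/-- walks between different edges of `T` have length at least `K` -/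
def Sep (P : Bool → Perm E) (w : E → ℕ) (T : Finset E) (K : ℕ) : Prop :=
  ∀ b b' e e' l c, e ∈ T → e' ∈ T → e ≠ e' → Wk P w b e b' e' l c → K ≤ l

/-- the number of visits to `T` -/
theorem count [DecidableEq E] {T : Finset E} (h : Sys P A) {L K : ℕ} (hT : T ⊆ A)
    (hL : Closed P (wt T) A L) (hK : Sep P (wt T) T K) (hKL : 3 * K ≤ L) {b b' : Bool} {e e' : E}
    {l c : ℕ} (hw : Wk P (wt T) b e b' e' l c) : K * c ≤ K * l + 2 * (l + K) := by
  have hsep : ∀ b b' e e' l c, e ∈ T → e' ∈ T → 0 < l → Wk P (wt T) b e b' e' l c → K ≤ l := by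
    intro b b' e e' l c he he' hl hw
    by_cases hee : e = e'
    · subst hee
      have h1 := hL.return h (hT he) hl hw
      have h2 := hw.cost_le (wt_le T)
      omega
    · exact hK _ _ _ _ _ _ he he' hee hw
  have key : ∃ v, c = l + 2 * v ∧ (v = 0 ∨ ∃ b1 e1 d c1, e1 ∈ T ∧ Wk P (wt T) b1 e1 b' e' d c1 ∧
      K * v + d ≤ l + K) := by
    induction hw with
    | nil => exact ⟨0, rfl, Or.inl rfl⟩
    | @snoc b1 e1 e2 l1 c1 h1 hs ih =>
      obtain ⟨v, hv, h2⟩ := ih
      by_cases he2 : e2 ∈ T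
      · refine ⟨v + 1, by simp only [wt, if_pos he2]; omega, Or.inr ⟨!b1, e2, 0, 0, he2, Wk.nil, ?_⟩⟩
        rcases h2 with rfl | ⟨b3, e3, d, c3, h3, h4, h5⟩
        · simp
        · have h6 := hsep _ _ _ _ _ _ h3 he2 (Nat.succ_pos _) (h4.snoc hs)
          rw [Nat.mul_succ]
          omega
      · refine ⟨v, by simp only [wt, if_neg he2]; omega, ?_⟩
        rcases h2 with h2 | ⟨b3, e3, d, c3, h3, h4, h5⟩
        · exact Or.inl h2
        · exact Or.inr ⟨b3, e3, d + 1, _, h3, h4.snoc hs, by omega⟩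
  obtain ⟨v, hv, h2⟩ := key
  have h3 : K * v ≤ l + K := by
    rcases h2 with rfl | ⟨_, _, d, _, _, _, h5⟩
    · simp
    · omega
  subst hv
  rw [Nat.mul_add]
  nlinarith

end CubGirth
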